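import Pool.Agent.HoroB.Pts

set_option autoImplicit false

/-!
# The arcs between consecutive rich horocycles
-/

open Finset UpperHalfPlane

namespace Pool.Agent.HoroB

/-- the points of `P` on the horocycle `v` (centre and diameter) -/
noncomputable def on (P : Finset ℍ) (v : ℝ × ℝ) : Finset ℍ := {z ∈ P | ff z v.1 = v.2}

theorem mem_on {P : Finset ℍ} {v : ℝ × ℝ} {z : ℍ} : z ∈ on P v ↔ z ∈ P ∧ ff z v.1 = v.2 := by
  unfold on
  rw [Finset.mem_filter]

open Classical in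
/-- the horocycles with real centre determined by `P` -/
noncomputable def Ver (P : Finset ℍ) : Finset (ℝ × ℝ) :=
  P.offDiag.biUnion fun q => (cr q.1 q.2).image fun a => (a, ff q.1 a)

theorem mem_Ver {P : Finset ℍ} {v : ℝ × ℝ} :
    v ∈ Ver P ↔ ∃ z ∈ on P v, ∃ w ∈ on P v, z ≠ w := by
  classical
  unfold Ver
  simp only [Finset.mem_biUnion, Finset.mem_offDiag, Finset.mem_image, mem_on]
  constructor
  · rintro ⟨⟨z, w⟩, ⟨hz, hw, hne⟩, a, ha, rfl⟩
    rw [mem_cr hne] at ha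
    exact ⟨z, ⟨hz, rfl⟩, w, ⟨hw, ha.symm⟩, hne⟩
  · rintro ⟨z, ⟨hz, hz'⟩, w, ⟨hw, hw'⟩, hne⟩
    refine ⟨(z, w), ⟨hz, hw, hne⟩, v.1, ?_, ?_⟩
    · rw [mem_cr hne, hz', hw']
    · simp only [hz']

theorem two_le {P : Finset ℍ} {v : ℝ × ℝ} (hv : v ∈ Ver P) : 2 ≤ (on P v).card := by
  rw [mem_Ver] at hv
  rw [show (2 : ℕ) = 1 + 1 from rfl, Nat.add_one_le_iff, Finset.one_lt_card]
  exact hv

/-- abscissas of the points of `W` on the curve of `z` -/
noncomputable def ab (W : Finset (ℝ × ℝ)) (z : ℍ) : Finset ℝ :=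
  {w ∈ W | ff z w.1 = w.2}.image Prod.fst

theorem mem_ab {W : Finset (ℝ × ℝ)} {z : ℍ} {a : ℝ} : a ∈ ab W z ↔ (a, ff z a) ∈ W := by
  unfold ab
  rw [Finset.mem_image]
  constructor
  · rintro ⟨⟨b, s⟩, hb, rfl⟩
    rw [Finset.mem_filter] at hb
    rw [show ff z (b, s).1 = s from hb.2]
    exact hb.1
  · intro h
    exact ⟨(a, ff z a), Finset.mem_filter.mpr ⟨h, rfl⟩, rfl⟩

theorem card_ab (W : Finset (ℝ × ℝ)) (z : ℍ) :
    (ab W z).card = {w ∈ W | ff z w.1 = w.2}.card := by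
  unfold ab
  refine Finset.card_image_of_injOn ?_
  rintro ⟨a, s⟩ ha ⟨b, t⟩ hb hab
  rw [Finset.mem_coe, Finset.mem_filter] at ha hb
  have h1 : a = b := hab
  subst h1
  have h2 : ff z a = s := ha.2
  have h3 : ff z a = t := hb.2
  rw [← h2, ← h3]

/-- consecutive pairs of abscissas, seen under an angle at most `π` -/
noncomputable def gc (W : Finset (ℝ × ℝ)) (z : ℍ) : Finset (ℝ × ℝ) :=
  open Classical in
  {q ∈ ab W z ×ˢ ab W z | q.1 < q.2 ∧ good z q.1 q.2 ∧ ∀ x ∈ ab W z, ¬ (q.1 < x ∧ x < q.2)}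

theorem mem_gc {W : Finset (ℝ × ℝ)} {z : ℍ} {q : ℝ × ℝ} : q ∈ gc W z ↔
    q.1 ∈ ab W z ∧ q.2 ∈ ab W z ∧ q.1 < q.2 ∧ good z q.1 q.2 ∧
      ∀ x ∈ ab W z, ¬ (q.1 < x ∧ x < q.2) := by
  classical
  unfold gc
  rw [Finset.mem_filter, Finset.mem_product]
  tauto

theorem card_ab_le (W : Finset (ℝ × ℝ)) (z : ℍ) : (ab W z).card ≤ (gc W z).card + 2 := by
  classical
  set A := ab W z with hA
  set D := (gc W z).image Prod.fst with hD
  set A1 := {a ∈ A | ∀ x ∈ A, x ≤ a} with hA1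
  set A2 := {a ∈ A | a < z.re ∧ ∀ x ∈ A, x < z.re → x ≤ a} with hA2
  have h1 : A1.card ≤ 1 := by
    rw [Finset.card_le_one]
    intro a ha b hb
    rw [hA1, Finset.mem_filter] at ha hb
    exact le_antisymm (hb.2 a ha.1) (ha.2 b hb.1)
  have h2 : A2.card ≤ 1 := by
    rw [Finset.card_le_one]
    intro a ha b hb
    rw [hA2, Finset.mem_filter] at ha hb
    exact le_antisymm (hb.2.2 a ha.1 ha.2.1) (ha.2.2 b hb.1 hb.2.1)
  have h3 : A ⊆ D ∪ (A1 ∪ A2) := by
    intro a ha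
    by_cases hmax : ∀ x ∈ A, x ≤ a
    · exact Finset.mem_union_right _ (Finset.mem_union_left _ (Finset.mem_filter.mpr ⟨ha, hmax⟩))
    · push Not at hmax
      obtain ⟨x0, hx0, hx0a⟩ := hmax
      have hne : ({x ∈ A | a < x}).Nonempty := ⟨x0, Finset.mem_filter.mpr ⟨hx0, hx0a⟩⟩
      set b := ({x ∈ A | a < x}).min' hne with hb
      have hbm := Finset.min'_mem _ hne
      rw [← hb, Finset.mem_filter] at hbm
      have hbmin : ∀ x ∈ A, a < x → b ≤ x := fun x hx hax =>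
        Finset.min'_le _ _ (Finset.mem_filter.mpr ⟨hx, hax⟩)
      by_cases hg : good z a b
      · refine Finset.mem_union_left _ (Finset.mem_image.mpr ⟨(a, b), ?_, rfl⟩)
        rw [mem_gc]
        exact ⟨ha, hbm.1, hbm.2, hg, fun x hx hx2 => absurd (hbmin x hx hx2.1) (not_le.mpr hx2.2)⟩
      · have h4 := between_of_not_good hbm.2 hg
        refine Finset.mem_union_right _ (Finset.mem_union_right _
          (Finset.mem_filter.mpr ⟨ha, h4.1, fun x hx hxz => ?_⟩))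
        by_contra hcon
        rw [not_le] at hcon
        exact absurd (hbmin x hx hcon) (not_le.mpr (hxz.trans h4.2))
  have h5 : D.card ≤ (gc W z).card := Finset.card_image_le
  calc A.card ≤ (D ∪ (A1 ∪ A2)).card := Finset.card_le_card h3
    _ ≤ D.card + (A1 ∪ A2).card := Finset.card_union_le _ _
    _ ≤ D.card + (A1.card + A2.card) := by
        have := Finset.card_union_le A1 A2
        omega
    _ ≤ _ := by omega

/-- the arcs -/
noncomputable def Ed (P : Finset ℍ) (W : Finset (ℝ × ℝ)) : Finset ((_ : ℍ) × (ℝ × ℝ)) :=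
  P.sigma fun z => gc W z

/-- left end -/
def lf (e : (_ : ℍ) × (ℝ × ℝ)) : ℝ := e.2.1

/-- right end -/
def rt (e : (_ : ℍ) × (ℝ × ℝ)) : ℝ := e.2.2

/-- the function of an arc -/
noncomputable def fn (e : (_ : ℍ) × (ℝ × ℝ)) : ℝ → ℝ := ff e.1

theorem mem_Ed {P : Finset ℍ} {W : Finset (ℝ × ℝ)} {e : (_ : ℍ) × (ℝ × ℝ)} :
    e ∈ Ed P W ↔ e.1 ∈ P ∧ e.2 ∈ gc W e.1 := by
  unfold Ed
  rw [Finset.mem_sigma]

theorem arcs (P : Finset ℍ) (W : Finset (ℝ × ℝ)) : Arcs W (Ed P W) lf rt fn := by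
  refine ⟨fun e => ff_cont e.1, ?_, ?_, ?_, ?_, ?_⟩
  · intro e he
    rw [mem_Ed, mem_gc] at he
    exact he.2.2.2.1
  · intro e he
    rw [mem_Ed, mem_gc] at he
    exact mem_ab.mp he.2.1
  · intro e he
    rw [mem_Ed, mem_gc] at he
    exact mem_ab.mp he.2.2.1
  · intro e he w hw h1 h2 h3
    rw [mem_Ed, mem_gc] at he
    refine he.2.2.2.2.2 w.1 ?_ ⟨h1, h2⟩
    rw [mem_ab]
    have : (w.1, ff e.1 w.1) = w := Prod.ext rfl h3.symm
    rw [this]
    exact hw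
  · intro e he e' he' hne h1 h2 h3 h4
    rw [mem_Ed, mem_gc] at he he'
    obtain ⟨z, a, b⟩ := e
    obtain ⟨z', a', b'⟩ := e'
    have h1' : a = a' := h1
    have h2' : b = b' := h2
    subst h1'
    subst h2'
    have := good_unique (ne_of_lt he.2.2.2.1) h3 h4 he.2.2.2.2.1 he'.2.2.2.2.1
    exact hne (by rw [show z = z' from this])

/-- two arcs of the same curve containing the same abscissa are equal -/
theorem arc_unique {P : Finset ℍ} {W : Finset (ℝ × ℝ)} {e e' : (_ : ℍ) × (ℝ × ℝ)}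
    (he : e ∈ Ed P W) (he' : e' ∈ Ed P W) (h : e.1 = e'.1) {x : ℝ} (h1 : lf e < x) (h2 : x < rt e)
    (h3 : lf e' < x) (h4 : x < rt e') : e = e' := by
  rw [mem_Ed, mem_gc] at he he'
  obtain ⟨z, a, b⟩ := e
  obtain ⟨z', a', b'⟩ := e'
  have h' : z = z' := h
  subst h'
  simp only [lf, rt] at h1 h2 h3 h4
  simp only at he he'
  have e1 : a = a' := by
    rcases lt_trichotomy a a' with h5 | h5 | h5
    · exact absurd ⟨h5, h3.trans h2⟩ (he.2.2.2.2.2 a' he'.2.1)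
    · exact h5
    · exact absurd ⟨h5, h1.trans h4⟩ (he'.2.2.2.2.2 a he.2.1)
  have e2 : b = b' := by
    rcases lt_trichotomy b b' with h5 | h5 | h5
    · exact absurd ⟨h3.trans h2, h5⟩ (he'.2.2.2.2.2 b he.2.2.1)
    · exact h5
    · exact absurd ⟨h1.trans h4, h5⟩ (he.2.2.2.2.2 b' he'.2.2.1)
  rw [e1, e2]

theorem ends_disjoint {P : Finset ℍ} {W : Finset (ℝ × ℝ)} {e e' : (_ : ℍ) × (ℝ × ℝ)}
    (he : e ∈ Ed P W) (he' : e' ∈ Ed P W) (hne : e.1 ≠ e'.1) (hc : Crossing lf rt fn e e') :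
    Disjoint (ends lf rt fn e) (ends lf rt fn e') := by
  obtain ⟨x, h1, h2, h3, h4, h5⟩ := hc
  rw [mem_Ed, mem_gc] at he he'
  obtain ⟨z, a, b⟩ := e
  obtain ⟨z', a', b'⟩ := e'
  simp only [lf, rt, fn] at h1 h2 h3 h4 h5
  simp only at he he' hne
  rw [Finset.disjoint_left]
  intro v hv hv'
  simp only [ends, lf, rt, fn, Finset.mem_insert, Finset.mem_singleton] at hv hv'
  rcases hv with rfl | rfl <;> rcases hv' with hv' | hv' <;> rw [Prod.mk.injEq] at hv' <;>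
    obtain ⟨i1, i2⟩ := hv'
  · subst i1
    exact hne (good_unique (ne_of_lt h1) i2 h5 (good_right he.2.2.2.2.1 h1 h2)
      (good_right he'.2.2.2.2.1 h3 h4))
  · linarith
  · linarith
  · subst i1
    exact hne (good_unique (ne_of_lt h2) h5 i2 (good_left he.2.2.2.2.1 h1 h2)
      (good_left he'.2.2.2.2.1 h3 h4))

/-- the number of arcs -/
theorem sum_on_le (P : Finset ℍ) (W : Finset (ℝ × ℝ)) :
    ∑ w ∈ W, (on P w).card ≤ (Ed P W).card + 2 * P.card := by
  have h1 : ∑ w ∈ W, (on P w).card = ∑ z ∈ P, (ab W z).card := by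
    have := Finset.sum_card_bipartiteAbove_eq_sum_card_bipartiteBelow (s := P) (t := W)
      (fun (z : ℍ) (w : ℝ × ℝ) => ff z w.1 = w.2)
    simp only [Finset.bipartiteAbove, Finset.bipartiteBelow] at this
    rw [Finset.sum_congr rfl fun z _ => card_ab W z]
    exact this.symm
  have h2 : (Ed P W).card = ∑ z ∈ P, (gc W z).card := by
    unfold Ed
    rw [Finset.card_sigma]
  rw [h1, h2]
  calc ∑ z ∈ P, (ab W z).card ≤ ∑ z ∈ P, ((gc W z).card + 2) :=
        Finset.sum_le_sum fun z _ => card_ab_le W z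
    _ = _ := by rw [Finset.sum_add_distrib, Finset.sum_const, smul_eq_mul, mul_comm P.card]

/-- the crossings -/
theorem exists_X (P : Finset ℍ) (W : Finset (ℝ × ℝ)) :
    ∃ X : Finset (((_ : ℍ) × (ℝ × ℝ)) × ((_ : ℍ) × (ℝ × ℝ))),
      Covers (Ed P W) lf rt fn X ∧ (∀ q ∈ X, q.1 ∈ Ed P W ∧ q.2 ∈ Ed P W) ∧
      (∀ q ∈ X, Disjoint (ends lf rt fn q.1) (ends lf rt fn q.2)) ∧
      2 * X.card ≤ ∑ v ∈ Ver P \ W, (on P v).card * ((on P v).card - 1) := by
  classical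
  set R : ℍ → ℍ → Prop := WellOrderingRel with hR
  set Y := {q ∈ Ed P W ×ˢ Ed P W | q.1.1 ≠ q.2.1 ∧ Crossing lf rt fn q.1 q.2} with hY
  set X := {q ∈ Y | R q.1.1 q.2.1} with hX
  have hXm : ∀ q ∈ X, (q.1 ∈ Ed P W ∧ q.2 ∈ Ed P W) ∧ (q.1.1 ≠ q.2.1 ∧
      Crossing lf rt fn q.1 q.2) ∧ R q.1.1 q.2.1 := by
    intro q hq
    rw [hX, Finset.mem_filter, hY, Finset.mem_filter, Finset.mem_product] at hq
    exact ⟨hq.1.1, hq.1.2, hq.2⟩
  refine ⟨X, ?_, fun q hq => (hXm q hq).1, fun q hq =>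
    ends_disjoint (hXm q hq).1.1 (hXm q hq).1.2 (hXm q hq).2.1.1 (hXm q hq).2.1.2, ?_⟩
  · intro e he e' he' hne hc
    have h1 : e.1 ≠ e'.1 := by
      intro h
      obtain ⟨x, h1, h2, h3, h4, -⟩ := hc
      exact hne (arc_unique he he' h h1 h2 h3 h4)
    have hc' : Crossing lf rt fn e' e := by
      obtain ⟨x, h1, h2, h3, h4, h5⟩ := hc
      exact ⟨x, h3, h4, h1, h2, h5.symm⟩
    rcases (inferInstance : Std.Trichotomous (WellOrderingRel (α := ℍ))).rel_or_eq_or_rel_swap (a := e.1) (b := e'.1) with h2 | h2 | h2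
    · left
      rw [hX, Finset.mem_filter, hY, Finset.mem_filter, Finset.mem_product]
      exact ⟨⟨⟨he, he'⟩, h1, hc⟩, h2⟩
    · exact absurd h2 h1
    · right
      rw [hX, Finset.mem_filter, hY, Finset.mem_filter, Finset.mem_product]
      exact ⟨⟨⟨he', he⟩, h1.symm, hc'⟩, h2⟩
  · have h1 : 2 * X.card ≤ Y.card := by
      have hdis : Disjoint X (X.image Prod.swap) := by
        rw [Finset.disjoint_left]
        intro q hq hq'
        rw [Finset.mem_image] at hq'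
        obtain ⟨q', hq', rfl⟩ := hq'
        exact (asymm_of WellOrderingRel (hXm _ hq).2.2) (hXm _ hq').2.2
      have hsub : X ∪ X.image Prod.swap ⊆ Y := by
        refine Finset.union_subset (Finset.filter_subset _ _) ?_
        intro q hq
        rw [Finset.mem_image] at hq
        obtain ⟨q', hq', rfl⟩ := hq
        obtain ⟨i1, i2, i3⟩ := hXm q' hq'
        rw [hY, Finset.mem_filter, Finset.mem_product]
        obtain ⟨x, h1, h2, h3, h4, h5⟩ := i2.2
        exact ⟨⟨i1.2, i1.1⟩, i2.1.symm, x, h3, h4, h1, h2, h5.symm⟩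
      have h2 := Finset.card_le_card hsub
      rw [Finset.card_union_of_disjoint hdis,
        Finset.card_image_of_injective _ Prod.swap_injective] at h2
      omega
    refine h1.trans ?_
    have h2 : ∀ q ∈ Y, ∃ x, lf q.1 < x ∧ x < rt q.1 ∧ lf q.2 < x ∧ x < rt q.2 ∧
        fn q.1 x = fn q.2 x := fun q hq => (Finset.mem_filter.mp hq).2.2
    choose! x hx using h2
    have h3 : Y.card ≤ ((Ver P \ W).sigma fun v => (on P v).offDiag).card := by
      refine Finset.card_le_card_of_injOn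
        (fun q => ⟨(x q, fn q.1 (x q)), (q.1.1, q.2.1)⟩) ?_ ?_
      · intro q hq
        have hq' := hq
        rw [Finset.mem_coe, hY, Finset.mem_filter, Finset.mem_product] at hq'
        obtain ⟨⟨i1, i2⟩, i3, i4⟩ := hq'
        obtain ⟨j1, j2, j3, j4, j5⟩ := hx q hq
        have k1 := (mem_Ed.mp i1).1
        have k2 := (mem_Ed.mp i2).1
        rw [Finset.mem_coe, Finset.mem_sigma, Finset.mem_offDiag, mem_on, mem_on,
          Finset.mem_sdiff, mem_Ver]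
        refine ⟨⟨⟨q.1.1, mem_on.mpr ⟨k1, rfl⟩, q.2.1, mem_on.mpr ⟨k2, j5.symm⟩, i3⟩, ?_⟩,
          ⟨k1, rfl⟩, ⟨k2, j5.symm⟩, i3⟩
        intro hW
        exact (arcs P W).inner q.1 i1 _ hW j1 j2 rfl
      · intro q hq q' hq' hqq
        obtain ⟨j1, j2, j3, j4, -⟩ := hx q hq
        obtain ⟨j1', j2', j3', j4', -⟩ := hx q' hq'
        rw [Finset.mem_coe, hY, Finset.mem_filter, Finset.mem_product] at hq hq'
        simp only [Sigma.mk.injEq, Prod.mk.injEq, heq_eq_eq] at hqq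
        obtain ⟨⟨k1, -⟩, k2, k3⟩ := hqq
        rw [← k1] at j1' j2' j3' j4'
        exact Prod.ext (arc_unique hq.1.1 hq'.1.1 k2 j1 j2 j1' j2')
          (arc_unique hq.1.2 hq'.1.2 k3 j3 j4 j3' j4')
    refine h3.trans (le_of_eq ?_)
    rw [Finset.card_sigma]
    refine Finset.sum_congr rfl fun v _ => ?_
    rw [Finset.offDiag_card, Nat.mul_sub, mul_one]

/-- the basic inequality -/
theorem basic (P : Finset ℍ) (W : Finset (ℝ × ℝ)) {p : ℝ} (hp0 : 0 ≤ p) (hp1 : p ≤ 1) :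
    p ^ 2 * ((∑ w ∈ W, ((on P w).card : ℝ)) - 2 * P.card) ≤ 3 * p * W.card +
      p ^ 4 * ∑ v ∈ Ver P \ W, ((on P v).card : ℝ) * (((on P v).card : ℝ) - 1) / 2 := by
  obtain ⟨X, hX, hXE, hd, hc⟩ := exists_X P W
  have h1 := crossing_ineq (arcs P W) hX hXE hd hp0 hp1
  have h2 : (∑ w ∈ W, ((on P w).card : ℝ)) - 2 * P.card ≤ (Ed P W).card := by
    have := sum_on_le P W
    have h3 : ((∑ w ∈ W, (on P w).card : ℕ) : ℝ) ≤ ((Ed P W).card + 2 * P.card : ℕ) := by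
      exact_mod_cast this
    push_cast at h3
    linarith
  have h4 : (X.card : ℝ) ≤ ∑ v ∈ Ver P \ W, ((on P v).card : ℝ) * (((on P v).card : ℝ) - 1) / 2 := by
    have h5 : ((2 * X.card : ℕ) : ℝ) ≤ ((∑ v ∈ Ver P \ W, (on P v).card * ((on P v).card - 1) : ℕ) :
        ℝ) := by exact_mod_cast hc
    push_cast at h5
    rw [← Finset.sum_div]
    have h6 : (∑ v ∈ Ver P \ W, ((on P v).card : ℝ) * (((on P v).card - 1 : ℕ) : ℝ)) =
        ∑ v ∈ Ver P \ W, ((on P v).card : ℝ) * (((on P v).card : ℝ) - 1) := by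
      refine Finset.sum_congr rfl fun v hv => ?_
      rw [Nat.cast_sub (by have := two_le (Finset.mem_sdiff.mp hv).1; omega), Nat.cast_one]
    rw [h6] at h5
    linarith
  have h7 : p ^ 4 * (X.card : ℝ) ≤
      p ^ 4 * ∑ v ∈ Ver P \ W, ((on P v).card : ℝ) * (((on P v).card : ℝ) - 1) / 2 :=
    mul_le_mul_of_nonneg_left h4 (by positivity)
  have h8 : p ^ 2 * ((∑ w ∈ W, ((on P w).card : ℝ)) - 2 * P.card) ≤ p ^ 2 * (Ed P W).card :=
    mul_le_mul_of_nonneg_left h2 (by positivity)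
  linarith

/-- Melchior-type inequality -/
theorem melchior (P : Finset ℍ) :
    ∑ v ∈ Ver P, ((on P v).card : ℝ) ≤ 3 * (Ver P).card + 2 * P.card := by
  have h := basic P (Ver P) (p := 1) zero_le_one le_rfl
  rw [Finset.sdiff_self, Finset.sum_empty] at h
  linarith

end Pool.Agent.HoroB
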