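import Pool.Agent.HoroB.Count

set_option autoImplicit false

/-!
# The weighted sum of the crossing inequalities

Level `K` (`3 ≤ K < M`) has probability `13 / (5 K)` and weight `177 K² / 1000`.
-/

open Finset UpperHalfPlane

namespace Pool.Agent.HoroB

theorem sum_Ico_id (j : ℕ) (hj : 2 ≤ j) :
    ∑ K ∈ Finset.Ico 3 (j + 1), (K : ℝ) = (j : ℝ) * (j + 1) / 2 - 3 := by
  induction j, hj using Nat.le_induction with
  | base => norm_num
  | succ j hj ih =>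
    rw [Finset.sum_Ico_succ_top (by omega), ih]
    push_cast
    ring

theorem sum_Ico_inv (m M : ℕ) (hm : 1 ≤ m) (hM : m ≤ M) :
    ∑ K ∈ Finset.Ico m M, 1 / (K : ℝ) ^ 2 ≤ 1 / ((m : ℝ) - 1 / 2) - 1 / ((M : ℝ) - 1 / 2) := by
  induction M, hM using Nat.le_induction with
  | base => simp
  | succ M hM ih =>
    rw [Finset.sum_Ico_succ_top hM]
    have h1 : (1 : ℝ) ≤ M := by exact_mod_cast hm.trans hM
    have h2 : 1 / (M : ℝ) ^ 2 ≤ 1 / ((M : ℝ) - 1 / 2) - 1 / (((M + 1 : ℕ) : ℝ) - 1 / 2) := by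
      push_cast
      have h3 : (0 : ℝ) < (M : ℝ) - 1 / 2 := by linarith
      have h4 : (0 : ℝ) < (M : ℝ) + 1 - 1 / 2 := by linarith
      rw [div_sub_div _ _ h3.ne' h4.ne', div_le_div_iff₀ (by positivity) (by positivity)]
      nlinarith
    linarith

/-- the contribution of a horocycle with `j` points to the inequality of level `K` -/
noncomputable def ctr (j K : ℕ) : ℝ :=
  177 / 1000 * (K : ℝ) ^ 2 * (if K ≤ j then (13 / 5 / (K : ℝ)) ^ 2 * j - 3 * (13 / 5 / (K : ℝ))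
    else -((13 / 5 / (K : ℝ)) ^ 4 * ((j : ℝ) * (j - 1) / 2)))

theorem level (P : Finset ℍ) {K : ℕ} (hK : 3 ≤ K) :
    ∑ v ∈ Ver P, ctr (on P v).card K ≤ 177 / 1000 * (13 / 5) ^ 2 * (2 * (P.card : ℝ)) := by
  classical
  have hK0 : (3 : ℝ) ≤ K := by exact_mod_cast hK
  have hK1 : (K : ℝ) ≠ 0 := by linarith
  set p : ℝ := 13 / 5 / (K : ℝ) with hp
  have hp0 : 0 ≤ p := by rw [hp]; positivity
  have hp1 : p ≤ 1 := by
    rw [hp, div_le_one (by linarith)]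
    linarith
  have h := basic P {v ∈ Ver P | K ≤ (on P v).card} hp0 hp1
  have h1 : Ver P \ {v ∈ Ver P | K ≤ (on P v).card} = {v ∈ Ver P | ¬ K ≤ (on P v).card} := by
    ext v
    simp only [Finset.mem_sdiff, Finset.mem_filter]
    tauto
  rw [h1] at h
  have h2 : ∑ v ∈ Ver P, ctr (on P v).card K = 177 / 1000 * (K : ℝ) ^ 2 *
      (p ^ 2 * (∑ w ∈ Ver P with K ≤ (on P w).card, ((on P w).card : ℝ)) -
        3 * p * ({v ∈ Ver P | K ≤ (on P v).card}.card : ℝ) -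
        p ^ 4 * ∑ v ∈ Ver P with ¬ K ≤ (on P v).card,
          ((on P v).card : ℝ) * (((on P v).card : ℝ) - 1) / 2) := by
    unfold ctr
    rw [← Finset.mul_sum, Finset.sum_ite, Finset.sum_sub_distrib, Finset.sum_const,
      Finset.sum_neg_distrib, ← Finset.mul_sum, ← Finset.mul_sum, nsmul_eq_mul]
    ring
  rw [h2]
  have h3 : p ^ 2 * (∑ w ∈ Ver P with K ≤ (on P w).card, ((on P w).card : ℝ)) -
        3 * p * ({v ∈ Ver P | K ≤ (on P v).card}.card : ℝ) -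
        p ^ 4 * ∑ v ∈ Ver P with ¬ K ≤ (on P v).card,
          ((on P v).card : ℝ) * (((on P v).card : ℝ) - 1) / 2 ≤ p ^ 2 * (2 * P.card) := by
    linarith
  calc _ ≤ 177 / 1000 * (K : ℝ) ^ 2 * (p ^ 2 * (2 * P.card)) :=
        mul_le_mul_of_nonneg_left h3 (by positivity)
    _ = _ := by
        rw [hp]
        field_simp

theorem ctr_le {j K : ℕ} (hK : 3 ≤ K) (h : K ≤ j) :
    ctr j K = 177 / 1000 * ((13 / 5) ^ 2 * j - 3 * (13 / 5) * K) := by
  have hK0 : (3 : ℝ) ≤ K := by exact_mod_cast hK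
  have hK1 : (K : ℝ) ≠ 0 := by linarith
  unfold ctr
  rw [if_pos h]
  field_simp

theorem ctr_gt {j K : ℕ} (hK : 3 ≤ K) (h : j < K) :
    ctr j K = -(177 / 1000 * (13 / 5) ^ 4 * ((j : ℝ) * (j - 1) / 2) * (1 / (K : ℝ) ^ 2)) := by
  have hK0 : (3 : ℝ) ≤ K := by exact_mod_cast hK
  have hK1 : (K : ℝ) ≠ 0 := by linarith
  unfold ctr
  rw [if_neg (not_le.mpr h)]
  field_simp

/-- horocycles with few points -/
theorem cert_small {j M : ℕ} (hj : 2 ≤ j) (hM : j < M) :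
    (j : ℝ) ^ 2 / 2 ≤ 61 / 5 + 139 / 20 * ((j : ℝ) - 3) + ∑ K ∈ Finset.Ico 3 M, ctr j K := by
  have hj0 : (2 : ℝ) ≤ j := by exact_mod_cast hj
  rw [← Finset.sum_Ico_consecutive _ (show 3 ≤ j + 1 by omega) (show j + 1 ≤ M by omega)]
  have h1 : ∑ K ∈ Finset.Ico 3 (j + 1), ctr j K = 177 / 1000 * ((13 / 5) ^ 2 * j * ((j : ℝ) - 2) -
      3 * (13 / 5) * ((j : ℝ) * (j + 1) / 2 - 3)) := by
    rw [← sum_Ico_id j hj]
    rw [Finset.sum_congr rfl fun K hK => ctr_le (Finset.mem_Ico.mp hK).1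
      (Nat.lt_succ_iff.mp (Finset.mem_Ico.mp hK).2)]
    rw [← Finset.mul_sum, Finset.sum_sub_distrib, Finset.sum_const, ← Finset.mul_sum,
      Nat.card_Ico, nsmul_eq_mul]
    have : ((j + 1 - 3 : ℕ) : ℝ) = (j : ℝ) - 2 := by
      rw [Nat.cast_sub (by omega)]
      push_cast
      ring
    rw [this]
    ring
  have h2 : -(177 / 1000 * (13 / 5) ^ 4 * ((j : ℝ) * (j - 1) / 2) * (1 / ((j : ℝ) + 1 / 2))) ≤
      ∑ K ∈ Finset.Ico (j + 1) M, ctr j K := by
    rw [Finset.sum_congr rfl fun K hK => ctr_gt (j := j) (K := K)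
      (by have := (Finset.mem_Ico.mp hK).1; omega) (by have := (Finset.mem_Ico.mp hK).1; omega)]
    rw [Finset.sum_neg_distrib, ← Finset.mul_sum]
    have h3 := sum_Ico_inv (j + 1) M (by omega) (by omega)
    have h4 : (0 : ℝ) < 1 / ((M : ℝ) - 1 / 2) := by
      have : (2 : ℝ) < M := by exact_mod_cast (by omega : 2 < M)
      exact div_pos one_pos (by linarith)
    have h5 : ∑ K ∈ Finset.Ico (j + 1) M, 1 / (K : ℝ) ^ 2 ≤ 1 / ((j : ℝ) + 1 / 2) := by
      push_cast at h3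
      have h6 : (j : ℝ) + 1 - 1 / 2 = j + 1 / 2 := by ring
      rw [h6] at h3
      linarith
    have h7 : 0 ≤ 177 / 1000 * (13 / 5) ^ 4 * ((j : ℝ) * (j - 1) / 2) := by
      have : 0 ≤ (j : ℝ) * (j - 1) := mul_nonneg (by linarith) (by linarith)
      positivity
    have := mul_le_mul_of_nonneg_left h5 h7
    linarith
  have h8 : (j : ℝ) ^ 2 / 2 ≤ 61 / 5 + 139 / 20 * ((j : ℝ) - 3) +
      (177 / 1000 * ((13 / 5) ^ 2 * j * ((j : ℝ) - 2) - 3 * (13 / 5) * ((j : ℝ) * (j + 1) / 2 - 3)) +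
      -(177 / 1000 * (13 / 5) ^ 4 * ((j : ℝ) * (j - 1) / 2) * (1 / ((j : ℝ) + 1 / 2)))) := by
    have h9 : (0 : ℝ) < (j : ℝ) + 1 / 2 := by linarith
    have h10 : ((j : ℝ) ^ 2 / 2) * (j + 1 / 2) + 177 / 1000 * (13 / 5) ^ 4 * ((j : ℝ) * (j - 1) / 2) ≤
        (61 / 5 + 139 / 20 * ((j : ℝ) - 3) + 177 / 1000 * ((13 / 5) ^ 2 * j * ((j : ℝ) - 2) -
          3 * (13 / 5) * ((j : ℝ) * (j + 1) / 2 - 3))) * (j + 1 / 2) := by
      rcases le_or_gt j 12 with h11 | h11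
      · interval_cases j <;> norm_num
      · have h12 : (13 : ℝ) ≤ j := by exact_mod_cast h11
        nlinarith [sq_nonneg ((j : ℝ) - 14), mul_nonneg (sub_nonneg.mpr h12)
          (sq_nonneg ((j : ℝ) - 14)), mul_nonneg (sub_nonneg.mpr h12) (sq_nonneg ((j : ℝ) - 15))]
    have h13 : (177 / 1000 * (13 / 5) ^ 4 * ((j : ℝ) * (j - 1) / 2) * (1 / ((j : ℝ) + 1 / 2))) *
        (j + 1 / 2) = 177 / 1000 * (13 / 5) ^ 4 * ((j : ℝ) * (j - 1) / 2) := by
      field_simp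
    refine le_of_mul_le_mul_right ?_ h9
    linarith
  linarith

/-- horocycles with many points -/
theorem cert_big {j M : ℕ} (hj : 2 ≤ j) (hM : M ≤ j) :
    0 ≤ 61 / 5 + 139 / 20 * ((j : ℝ) - 3) + ∑ K ∈ Finset.Ico 3 M, ctr j K := by
  have hj0 : (2 : ℝ) ≤ j := by exact_mod_cast hj
  rcases le_or_gt M 3 with h | h
  · rw [Finset.Ico_eq_empty (by omega), Finset.sum_empty]
    linarith
  · have h1 : ∑ K ∈ Finset.Ico 3 M, ctr j K = 177 / 1000 * ((13 / 5) ^ 2 * j * ((M : ℝ) - 3) -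
        3 * (13 / 5) * (((M : ℝ) - 1) * M / 2 - 3)) := by
      obtain ⟨m, rfl⟩ : ∃ m, M = m + 1 := ⟨M - 1, by omega⟩
      have h2 := sum_Ico_id m (by omega)
      rw [Finset.sum_congr rfl fun K hK => ctr_le (j := j) (Finset.mem_Ico.mp hK).1
        (by have := (Finset.mem_Ico.mp hK).2; omega)]
      rw [← Finset.mul_sum, Finset.sum_sub_distrib, Finset.sum_const, ← Finset.mul_sum,
        Nat.card_Ico, nsmul_eq_mul, h2]
      have : ((m + 1 - 3 : ℕ) : ℝ) = (m : ℝ) - 2 := by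
        rw [Nat.cast_sub (by omega)]
        push_cast
        ring
      rw [this]
      push_cast
      ring
    rw [h1]
    have h3 : (4 : ℝ) ≤ M := by exact_mod_cast h
    have h4 : (M : ℝ) ≤ j := by exact_mod_cast hM
    nlinarith [mul_nonneg (sub_nonneg.mpr h4) (sub_nonneg.mpr h3),
      mul_nonneg (sub_nonneg.mpr h3) (sub_nonneg.mpr h3)]

/-- the main inequality -/
theorem main_ineq (P : Finset ℍ) (M : ℕ) :
    ∑ v ∈ Ver P with (on P v).card < M, ((on P v).card : ℝ) ^ 2 / 2 ≤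
      61 / 5 * ((Ver P).card : ℝ) + 139 / 10 * (P.card : ℝ) +
        177 / 1000 * (13 / 5) ^ 2 * (2 * (P.card : ℝ)) * M := by
  classical
  have h1 : ∑ v ∈ Ver P with (on P v).card < M, ((on P v).card : ℝ) ^ 2 / 2 ≤
      ∑ v ∈ Ver P, (61 / 5 + 139 / 20 * (((on P v).card : ℝ) - 3) +
        ∑ K ∈ Finset.Ico 3 M, ctr (on P v).card K) := by
    rw [Finset.sum_filter]
    refine Finset.sum_le_sum fun v hv => ?_
    have h2 := two_le hv
    split_ifs with h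
    · exact cert_small h2 h
    · exact cert_big h2 (not_lt.mp h)
  have h3 : ∑ v ∈ Ver P, ∑ K ∈ Finset.Ico 3 M, ctr (on P v).card K ≤
      177 / 1000 * (13 / 5) ^ 2 * (2 * (P.card : ℝ)) * M := by
    rw [Finset.sum_comm]
    calc ∑ K ∈ Finset.Ico 3 M, ∑ v ∈ Ver P, ctr (on P v).card K
        ≤ ∑ _K ∈ Finset.Ico 3 M, 177 / 1000 * (13 / 5) ^ 2 * (2 * (P.card : ℝ)) :=
          Finset.sum_le_sum fun K hK => level P (Finset.mem_Ico.mp hK).1
      _ = ((M - 3 : ℕ) : ℝ) * (177 / 1000 * (13 / 5) ^ 2 * (2 * (P.card : ℝ))) := by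
          rw [Finset.sum_const, Nat.card_Ico, nsmul_eq_mul]
      _ ≤ (M : ℝ) * (177 / 1000 * (13 / 5) ^ 2 * (2 * (P.card : ℝ))) := by
          refine mul_le_mul_of_nonneg_right ?_ (by positivity)
          exact_mod_cast Nat.sub_le _ _
      _ = _ := by ring
  have h4 := melchior P
  rw [Finset.sum_add_distrib, Finset.sum_add_distrib, Finset.sum_const, nsmul_eq_mul,
    ← Finset.mul_sum, Finset.sum_sub_distrib, Finset.sum_const, nsmul_eq_mul] at h1
  linarith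

end Pool.Agent.HoroB
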