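import Pool.Agent.HoroB.Build

set_option autoImplicit false

/-!
# Pairs of points on horocycles with few points
-/

open Finset UpperHalfPlane

namespace Pool.Agent.HoroB

/-- two different horocycles have at most two common points -/
theorem three_pts {a c s t : ℝ} (hac : a ≠ c) {z w u : ℍ} (hzw : z ≠ w) (hzu : z ≠ u)
    (hwu : w ≠ u) (z1 : ff z a = s) (z2 : ff z c = t) (w1 : ff w a = s) (w2 : ff w c = t)
    (u1 : ff u a = s) (u2 : ff u c = t) : False := by
  have ha : a - c ≠ 0 := sub_ne_zero.mpr hac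
  set k := (s - t) / (2 * (a - c)) with hk
  have hk' : s - t = 2 * (a - c) * k := by
    rw [hk]
    field_simp
  have key : ∀ v : ℍ, ff v a = s → ff v c = t → v.re = (a + c) / 2 - k * v.im ∧
      (1 + k ^ 2) * v.im ^ 2 + ((a - c) * k - s) * v.im + ((a - c) / 2) ^ 2 = 0 := by
    intro v h1 h2
    have e1 := ff_mul v a
    have e2 := ff_mul v c
    rw [h1] at e1
    rw [h2] at e2
    have e3 : v.re = (a + c) / 2 - k * v.im := by
      have : (a - c) * (v.re - ((a + c) / 2 - k * v.im)) = 0 := by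
        have : (s - t) * v.im = (a - v.re) ^ 2 - (c - v.re) ^ 2 := by linarith
        rw [hk'] at this
        linear_combination (1 / 2 : ℝ) * this
      rcases mul_eq_zero.mp this with h | h
      · exact absurd h ha
      · linarith
    refine ⟨e3, ?_⟩
    rw [e3] at e1
    linear_combination -e1
  have kz := key z z1 z2
  have kw := key w w1 w2
  have ku := key u u1 u2
  have hk1 : (1 : ℝ) + k ^ 2 ≠ 0 := by positivity
  have im1 : z.im ≠ w.im := fun h => hzw (ext' (by rw [kz.1, kw.1, h]) h)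
  have im2 : z.im ≠ u.im := fun h => hzu (ext' (by rw [kz.1, ku.1, h]) h)
  have im3 : w.im ≠ u.im := fun h => hwu (ext' (by rw [kw.1, ku.1, h]) h)
  have f1 : (1 + k ^ 2) * (z.im + w.im) + ((a - c) * k - s) = 0 := by
    have : (z.im - w.im) * ((1 + k ^ 2) * (z.im + w.im) + ((a - c) * k - s)) = 0 := by
      linear_combination kz.2 - kw.2
    rcases mul_eq_zero.mp this with h | h
    · exact absurd h (sub_ne_zero.mpr im1)
    · exact h
  have f2 : (1 + k ^ 2) * (z.im + u.im) + ((a - c) * k - s) = 0 := by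
    have : (z.im - u.im) * ((1 + k ^ 2) * (z.im + u.im) + ((a - c) * k - s)) = 0 := by
      linear_combination kz.2 - ku.2
    rcases mul_eq_zero.mp this with h | h
    · exact absurd h (sub_ne_zero.mpr im2)
    · exact h
  have f3 : (1 + k ^ 2) * (w.im - u.im) = 0 := by linear_combination f1 - f2
  rcases mul_eq_zero.mp f3 with h | h
  · exact hk1 h
  · exact im3 (sub_eq_zero.mp h)

theorem card_inter_on [DecidableEq ℍ] (P : Finset ℍ) {v v' : ℝ × ℝ} (hv : v ≠ v') :
    (on P v ∩ on P v').card ≤ 2 := by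
  by_contra hcon
  rw [not_le, Finset.two_lt_card] at hcon
  obtain ⟨z, hz, w, hw, u, hu, hzw, hzu, hwu⟩ := hcon
  rw [Finset.mem_inter, mem_on, mem_on] at hz hw hu
  by_cases hac : v.1 = v'.1
  · refine hv (Prod.ext hac ?_)
    rw [← hz.1.2, ← hz.2.2, hac]
  · exact three_pts hac hzw hzu hwu hz.1.2 hz.2.2 hw.1.2 hw.2.2 hu.1.2 hu.2.2

/-- the points of `P` on a horocycle; the horocycles centred at infinity are the `inr c` -/
noncomputable def pt (P : Finset ℍ) : (ℝ × ℝ) ⊕ ℝ → Finset ℍ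
  | Sum.inl v => on P v
  | Sum.inr c => {z ∈ P | z.im = c}

theorem mem_inr {P : Finset ℍ} {c : ℝ} {z : ℍ} : z ∈ pt P (Sum.inr c) ↔ z ∈ P ∧ z.im = c := by
  unfold pt
  rw [Finset.mem_filter]

theorem pt_sub (P : Finset ℍ) (i : (ℝ × ℝ) ⊕ ℝ) : pt P i ⊆ P := by
  intro z hz
  rcases i with v | c
  · exact (mem_on.mp hz).1
  · exact (mem_inr.mp hz).1

theorem card_inter_lr [DecidableEq ℍ] (P : Finset ℍ) (v : ℝ × ℝ) (c : ℝ) :
    (pt P (Sum.inl v) ∩ pt P (Sum.inr c)).card ≤ 2 := by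
  by_contra hcon
  rw [not_le, Finset.two_lt_card] at hcon
  obtain ⟨z, hz, w, hw, u, hu, hzw, hzu, hwu⟩ := hcon
  rw [Finset.mem_inter, mem_inr] at hz hw hu
  have z1 := mem_on.mp hz.1
  have w1 := mem_on.mp hw.1
  have u1 := mem_on.mp hu.1
  have e1 := re_add hzw (hz.2.2.trans hw.2.2.symm) (z1.2.trans w1.2.symm)
  have e2 := re_add hzu (hz.2.2.trans hu.2.2.symm) (z1.2.trans u1.2.symm)
  exact hwu (ext' (by linarith) (hw.2.2.trans hu.2.2.symm))

theorem card_inter_le [DecidableEq ℍ] (P : Finset ℍ) {i j : (ℝ × ℝ) ⊕ ℝ} (h : i ≠ j) :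
    (pt P i ∩ pt P j).card ≤ 2 := by
  rcases i with v | c <;> rcases j with v' | c'
  · exact card_inter_on P fun hh => h (by rw [hh])
  · exact card_inter_lr P v c'
  · rw [Finset.inter_comm]
    exact card_inter_lr P v' c
  · have : pt P (Sum.inr c) ∩ pt P (Sum.inr c') = ∅ := by
      rw [Finset.eq_empty_iff_forall_notMem]
      intro z hz
      rw [Finset.mem_inter, mem_inr, mem_inr] at hz
      exact h (by rw [← hz.1.2, ← hz.2.2])
    rw [this]
    simp

/-- all horocycles determined by `P` (and the horocycles centred at infinity with one point) -/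
noncomputable def Al (P : Finset ℍ) : Finset ((ℝ × ℝ) ⊕ ℝ) :=
  (Ver P).disjSum (P.image UpperHalfPlane.im)

/-- horocycles with at least `M` points -/
noncomputable def big (P : Finset ℍ) (M : ℕ) : Finset ((ℝ × ℝ) ⊕ ℝ) :=
  {i ∈ Al P | M ≤ (pt P i).card}

/-- horocycles with less than `M` points -/
noncomputable def small (P : Finset ℍ) (M : ℕ) : Finset ((ℝ × ℝ) ⊕ ℝ) :=
  {i ∈ Al P | (pt P i).card < M}

theorem sum_on_union [DecidableEq ℍ] (P : Finset ℍ) (B : Finset ((ℝ × ℝ) ⊕ ℝ)) :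
    ∑ v ∈ B, (pt P v).card ≤ (B.biUnion fun v => pt P v).card + B.card ^ 2 := by
  classical
  induction B using Finset.induction_on with
  | empty => simp
  | insert v B hv ih =>
    rw [Finset.sum_insert hv, Finset.card_insert_of_notMem hv, Finset.biUnion_insert]
    have h1 := Finset.card_union_add_card_inter (pt P v) (B.biUnion fun v => pt P v)
    have h2 : (pt P v ∩ B.biUnion fun v => pt P v).card ≤ 2 * B.card := by
      rw [Finset.inter_biUnion]
      refine Finset.card_biUnion_le.trans ?_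
      rw [mul_comm, ← smul_eq_mul, ← Finset.sum_const]
      refine Finset.sum_le_sum fun v' hv' => card_inter_le P ?_
      rintro rfl
      exact hv hv'
    nlinarith

theorem card_big_lt (P : Finset ℍ) {M b : ℕ} (h : P.card + b ^ 2 < b * M) :
    (big P M).card < b := by
  classical
  by_contra hcon
  rw [not_lt] at hcon
  obtain ⟨B, hB, hBc⟩ := Finset.exists_subset_card_eq hcon
  have h1 := sum_on_union P B
  have h2 : (B.biUnion fun v => pt P v).card ≤ P.card := by
    refine Finset.card_le_card ?_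
    intro z hz
    rw [Finset.mem_biUnion] at hz
    obtain ⟨v, -, hz⟩ := hz
    exact pt_sub P v hz
  have h3 : b * M ≤ ∑ v ∈ B, (pt P v).card := by
    rw [← hBc, ← smul_eq_mul, ← Finset.sum_const]
    exact Finset.sum_le_sum fun v hv => (Finset.mem_filter.mp (hB hv)).2
  rw [hBc] at h1
  omega

/-- two points are on two horocycles -/
theorem two_hor {P : Finset ℍ} {z w : ℍ} (hz : z ∈ P) (hw : w ∈ P) (hne : z ≠ w) :
    ∃ i ∈ Al P, ∃ j ∈ Al P, i ≠ j ∧ (z ∈ pt P i ∧ w ∈ pt P i) ∧ (z ∈ pt P j ∧ w ∈ pt P j) := by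
  classical
  have hon : ∀ a ∈ cr z w, (z ∈ on P (a, ff z a) ∧ w ∈ on P (a, ff z a)) := by
    intro a ha
    rw [mem_cr hne] at ha
    exact ⟨mem_on.mpr ⟨hz, rfl⟩, mem_on.mpr ⟨hw, ha.symm⟩⟩
  have hVer : ∀ a ∈ cr z w, Sum.inl (a, ff z a) ∈ Al P := fun a ha => by
    unfold Al
    rw [Finset.inl_mem_disjSum]
    exact mem_Ver.mpr ⟨z, (hon a ha).1, w, (hon a ha).2, hne⟩
  by_cases him : z.im = w.im
  · obtain ⟨a, ha⟩ := cr_nonempty hne
    refine ⟨Sum.inl (a, ff z a), hVer a ha, Sum.inr z.im, ?_, by simp, hon a ha,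
      mem_inr.mpr ⟨hz, rfl⟩, mem_inr.mpr ⟨hw, him.symm⟩⟩
    unfold Al
    rw [Finset.inr_mem_disjSum]
    exact Finset.mem_image_of_mem _ hz
  · have h2 := card_cr_ne him
    rw [Finset.card_eq_two] at h2
    obtain ⟨a, b, hab, hcr⟩ := h2
    have ha : a ∈ cr z w := by rw [hcr]; simp
    have hb : b ∈ cr z w := by rw [hcr]; simp
    refine ⟨Sum.inl (a, ff z a), hVer a ha, Sum.inl (b, ff z b), hVer b hb, ?_, hon a ha, hon b hb⟩
    intro h
    rw [Sum.inl.injEq, Prod.mk.injEq] at h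
    exact hab h.1

theorem pairs_le (P : Finset ℍ) (M : ℕ) : ∃ q : ℕ, P.card ≤ q + 2 * (big P M).card ^ 2 ∧
    2 * (q * q - q) ≤ ∑ i ∈ small P M, (pt P i).card ^ 2 := by
  classical
  set D := (big P M).offDiag.biUnion fun q => (pt P q.1 ∩ pt P q.2) with hD
  have hDz : ∀ z, z ∉ D → ∀ g ∈ big P M, ∀ g' ∈ big P M, z ∈ pt P g → z ∈ pt P g' → g = g' := by
    intro z hz g hg g' hg' h1 h2
    by_contra hne
    refine hz (Finset.mem_biUnion.mpr ⟨(g, g'), ?_, Finset.mem_inter.mpr ⟨h1, h2⟩⟩)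
    rw [Finset.mem_offDiag]
    exact ⟨hg, hg', hne⟩
  have hbs : ∀ g ∈ big P M, ∀ i ∈ small P M, g ≠ i := by
    rintro g hg i hi rfl
    exact absurd (Finset.mem_filter.mp hg).2 (not_le.mpr (Finset.mem_filter.mp hi).2)
  have hsp : ∀ i ∈ Al P, i ∈ big P M ∨ i ∈ small P M := by
    intro i hi
    rcases le_or_gt M (pt P i).card with h | h
    · exact Or.inl (Finset.mem_filter.mpr ⟨hi, h⟩)
    · exact Or.inr (Finset.mem_filter.mpr ⟨hi, h⟩)
  refine ⟨(P \ D).card, ?_, ?_⟩
  · have h1 : D.card ≤ 2 * (big P M).card ^ 2 := by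
      refine Finset.card_biUnion_le.trans ?_
      calc ∑ q ∈ (big P M).offDiag, (pt P q.1 ∩ pt P q.2).card
          ≤ ∑ _q ∈ (big P M).offDiag, 2 := by
            refine Finset.sum_le_sum fun q hq => ?_
            rw [Finset.mem_offDiag] at hq
            exact card_inter_le P hq.2.2
        _ = (big P M).offDiag.card * 2 := by rw [Finset.sum_const, smul_eq_mul]
        _ ≤ _ := by
            rw [Finset.offDiag_card, pow_two, mul_comm]
            exact Nat.mul_le_mul_left _ (Nat.sub_le _ _)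
    have h2 : P.card ≤ (P \ D).card + D.card := by
      have := Finset.card_le_card (Finset.subset_union_left (s₁ := P) (s₂ := D))
      rw [← Finset.sdiff_union_self_eq_union] at this
      exact this.trans (Finset.card_union_le _ _)
    omega
  · set Q := (P \ D).offDiag with hQ
    have hQm : ∀ q ∈ Q, (q.1 ∈ P ∧ q.1 ∉ D) ∧ (q.2 ∈ P ∧ q.2 ∉ D) ∧ q.1 ≠ q.2 := by
      intro q hq
      rw [hQ, Finset.mem_offDiag, Finset.mem_sdiff, Finset.mem_sdiff] at hq
      exact hq
    have hT : ∀ q ∈ Q, 2 ≤ ((small P M).filter fun i => q.1 ∈ pt P i ∧ q.2 ∈ pt P i).card +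
        ((small P M).filter fun i => (q.1 ∈ pt P i ∧ q.2 ∈ pt P i) ∧
          ∃ g ∈ big P M, q.1 ∈ pt P g ∧ q.2 ∈ pt P g).card := by
      intro q hq
      obtain ⟨⟨h1, h2⟩, ⟨h3, h4⟩, h5⟩ := hQm q hq
      obtain ⟨i, hi, j, hj, hij, hqi, hqj⟩ := two_hor h1 h3 h5
      rcases hsp i hi with hi' | hi' <;> rcases hsp j hj with hj' | hj'
      · exact absurd (hDz q.1 h2 i hi' j hj' hqi.1 hqj.1) hij
      · have c1 : 1 ≤ ((small P M).filter fun i => q.1 ∈ pt P i ∧ q.2 ∈ pt P i).card :=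
          Finset.card_pos.mpr ⟨j, Finset.mem_filter.mpr ⟨hj', hqj⟩⟩
        have c2 : 1 ≤ ((small P M).filter fun i => (q.1 ∈ pt P i ∧ q.2 ∈ pt P i) ∧
            ∃ g ∈ big P M, q.1 ∈ pt P g ∧ q.2 ∈ pt P g).card :=
          Finset.card_pos.mpr ⟨j, Finset.mem_filter.mpr ⟨hj', hqj, i, hi', hqi⟩⟩
        omega
      · have c1 : 1 ≤ ((small P M).filter fun i => q.1 ∈ pt P i ∧ q.2 ∈ pt P i).card :=
          Finset.card_pos.mpr ⟨i, Finset.mem_filter.mpr ⟨hi', hqi⟩⟩
        have c2 : 1 ≤ ((small P M).filter fun i => (q.1 ∈ pt P i ∧ q.2 ∈ pt P i) ∧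
            ∃ g ∈ big P M, q.1 ∈ pt P g ∧ q.2 ∈ pt P g).card :=
          Finset.card_pos.mpr ⟨i, Finset.mem_filter.mpr ⟨hi', hqi, j, hj', hqj⟩⟩
        omega
      · have c1 : 1 < ((small P M).filter fun i => q.1 ∈ pt P i ∧ q.2 ∈ pt P i).card :=
          Finset.one_lt_card.mpr ⟨i, Finset.mem_filter.mpr ⟨hi', hqi⟩, j,
            Finset.mem_filter.mpr ⟨hj', hqj⟩, hij⟩
        omega
    have e1 := Finset.sum_card_bipartiteAbove_eq_sum_card_bipartiteBelow (s := Q)
      (t := small P M) (fun (q : ℍ × ℍ) i => q.1 ∈ pt P i ∧ q.2 ∈ pt P i)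
    have e2 := Finset.sum_card_bipartiteAbove_eq_sum_card_bipartiteBelow (s := Q)
      (t := small P M) (fun (q : ℍ × ℍ) i => (q.1 ∈ pt P i ∧ q.2 ∈ pt P i) ∧
          ∃ g ∈ big P M, q.1 ∈ pt P g ∧ q.2 ∈ pt P g)
    simp only [Finset.bipartiteAbove, Finset.bipartiteBelow] at e1 e2
    have b1 : ∀ i ∈ small P M, (Q.filter fun q : ℍ × ℍ => q.1 ∈ pt P i ∧ q.2 ∈ pt P i).card ≤
        (pt P i).card * (pt P i).card - (pt P i).card := by
      intro i _
      rw [← Finset.offDiag_card]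
      refine Finset.card_le_card ?_
      intro q hq
      rw [Finset.mem_filter] at hq
      rw [Finset.mem_offDiag]
      exact ⟨hq.2.1, hq.2.2, (hQm q hq.1).2.2⟩
    have b2 : ∀ i ∈ small P M, (Q.filter fun q : ℍ × ℍ => (q.1 ∈ pt P i ∧ q.2 ∈ pt P i) ∧
          ∃ g ∈ big P M, q.1 ∈ pt P g ∧ q.2 ∈ pt P g).card ≤ (pt P i).card := by
      intro i hi
      refine Finset.card_le_card_of_injOn Prod.fst ?_ ?_
      · intro q hq
        rw [Finset.mem_coe, Finset.mem_filter] at hq
        exact hq.2.1.1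
      · intro q hq q' hq' hqq
        rw [Finset.mem_coe, Finset.mem_filter] at hq hq'
        obtain ⟨h1, ⟨h2, h3⟩, g, hg, h4, h5⟩ := hq
        obtain ⟨h1', ⟨h2', h3'⟩, g', hg', h4', h5'⟩ := hq'
        have m1 := hQm q h1
        have m1' := hQm q' h1'
        rw [← hqq] at h4'
        have hgg := hDz q.1 m1.1.2 g hg g' hg' h4 h4'
        subst hgg
        refine Prod.ext hqq ?_
        by_contra hne
        have h6 := card_inter_le P (hbs g hg i hi)
        have h7 : 2 < (pt P g ∩ pt P i).card := by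
          rw [Finset.two_lt_card]
          refine ⟨q.1, Finset.mem_inter.mpr ⟨h4, h2⟩, q.2, Finset.mem_inter.mpr ⟨h5, h3⟩, q'.2,
            Finset.mem_inter.mpr ⟨h5', h3'⟩, m1.2.2, ?_, hne⟩
          rw [hqq]
          exact m1'.2.2
        omega
    have h1 : 2 * Q.card ≤ ∑ q ∈ Q, (((small P M).filter fun i => q.1 ∈ pt P i ∧
        q.2 ∈ pt P i).card + ((small P M).filter fun i => (q.1 ∈ pt P i ∧ q.2 ∈ pt P i) ∧
          ∃ g ∈ big P M, q.1 ∈ pt P g ∧ q.2 ∈ pt P g).card) := by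
      rw [mul_comm, ← smul_eq_mul, ← Finset.sum_const]
      exact Finset.sum_le_sum hT
    rw [Finset.sum_add_distrib, e1, e2, ← Finset.sum_add_distrib] at h1
    have h2 : Q.card = (P \ D).card * (P \ D).card - (P \ D).card := by
      rw [hQ, Finset.offDiag_card]
    rw [← h2]
    refine h1.trans (Finset.sum_le_sum fun i hi => ?_)
    have := b1 i hi
    have := b2 i hi
    have h3 : (pt P i).card ≤ (pt P i).card * (pt P i).card := Nat.le_mul_self _
    rw [pow_two]
    omega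

theorem sum_lines (P : Finset ℍ) (M : ℕ) : ∑ i ∈ small P M, (pt P i).card ^ 2 ≤
    (∑ v ∈ Ver P with (on P v).card < M, (on P v).card ^ 2) + M * P.card := by
  classical
  have h1 : small P M = ({v ∈ Ver P | (on P v).card < M}).disjSum
      {c ∈ P.image UpperHalfPlane.im | (pt P (Sum.inr c)).card < M} := by
    ext i
    unfold small Al
    rcases i with v | c
    · rw [Finset.mem_filter, Finset.inl_mem_disjSum, Finset.inl_mem_disjSum, Finset.mem_filter]
      rfl
    · rw [Finset.mem_filter, Finset.inr_mem_disjSum, Finset.inr_mem_disjSum, Finset.mem_filter]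
  rw [h1, Finset.sum_disjSum]
  refine Nat.add_le_add (le_of_eq rfl) ?_
  calc ∑ c ∈ P.image UpperHalfPlane.im with (pt P (Sum.inr c)).card < M,
        (pt P (Sum.inr c)).card ^ 2
      ≤ ∑ c ∈ P.image UpperHalfPlane.im with (pt P (Sum.inr c)).card < M,
        M * (pt P (Sum.inr c)).card := by
        refine Finset.sum_le_sum fun c hc => ?_
        rw [pow_two]
        exact Nat.mul_le_mul_right _ (Finset.mem_filter.mp hc).2.le
    _ ≤ ∑ c ∈ P.image UpperHalfPlane.im, M * (pt P (Sum.inr c)).card :=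
        Finset.sum_le_sum_of_subset (Finset.filter_subset _ _)
    _ = M * P.card := by
        rw [← Finset.mul_sum]
        congr 1
        exact (Finset.card_eq_sum_card_image UpperHalfPlane.im P).symm

end Pool.Agent.HoroB
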