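import Pool.Agent.HoroB.Planar

set_option autoImplicit false

/-!
# The crossing inequality for graphs of functions

`X` contains every crossing pair of arcs (in one of the two orders). Then `|E| ≤ 3 |W| + |X|`, and
if the four ends of the two arcs of every pair in `X` are different, then
`p² |E| ≤ 3 p |W| + p⁴ |X|` for `0 ≤ p ≤ 1` (random subset of `W`).
-/

open Finset

namespace Pool.Agent.HoroB

variable {α : Type*} {W : Finset (ℝ × ℝ)} {E : Finset α} {l r : α → ℝ} {F : α → ℝ → ℝ}

/-- `e` and `e'` cross -/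
def Crossing (l r : α → ℝ) (F : α → ℝ → ℝ) (e e' : α) : Prop :=
  ∃ x, l e < x ∧ x < r e ∧ l e' < x ∧ x < r e' ∧ F e x = F e' x

/-- `X` contains the crossing pairs of `E` -/
def Covers (E : Finset α) (l r : α → ℝ) (F : α → ℝ → ℝ) (X : Finset (α × α)) : Prop :=
  ∀ e ∈ E, ∀ e' ∈ E, e ≠ e' → Crossing l r F e e' → (e, e') ∈ X ∨ (e', e) ∈ X

theorem card_le_cross (h : Arcs W E l r F) {X : Finset (α × α)} (hX : Covers E l r F X) :
    E.card ≤ 3 * W.card + X.card := by
  classical
  set D := X.image Prod.fst with hD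
  have h1 : Arcs W (E \ D) l r F :=
    ⟨h.cont, fun e he => h.lt e (Finset.mem_sdiff.mp he).1,
      fun e he => h.left e (Finset.mem_sdiff.mp he).1,
      fun e he => h.right e (Finset.mem_sdiff.mp he).1,
      fun e he => h.inner e (Finset.mem_sdiff.mp he).1,
      fun e he e' he' => h.simple e (Finset.mem_sdiff.mp he).1 e' (Finset.mem_sdiff.mp he').1⟩
  have h2 : NoCross (E \ D) l r F := by
    intro e he e' he' hne x a1 a2 a3 a4 hx
    rw [Finset.mem_sdiff] at he he'
    rcases hX e he.1 e' he'.1 hne ⟨x, a1, a2, a3, a4, hx⟩ with h3 | h3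
    · exact he.2 (Finset.mem_image_of_mem Prod.fst h3)
    · exact he'.2 (Finset.mem_image_of_mem Prod.fst h3)
  have h3 := card_le_of_noCross h1 h2
  have h4 : D.card ≤ X.card := Finset.card_image_le
  have h5 : E.card ≤ (E \ D).card + D.card := by
    have := Finset.card_le_card (Finset.subset_union_left (s₁ := E) (s₂ := D))
    rw [← Finset.sdiff_union_self_eq_union] at this
    exact this.trans (Finset.card_union_le _ _)
  omega

/-- weight of a random subset -/
noncomputable def wgt (W : Finset (ℝ × ℝ)) (p : ℝ) (U : Finset (ℝ × ℝ)) : ℝ :=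
  p ^ U.card * (1 - p) ^ (W \ U).card

theorem sum_wgt (W : Finset (ℝ × ℝ)) (p : ℝ) {A : Finset (ℝ × ℝ)} (hA : A ⊆ W) :
    ∑ U ∈ W.powerset with A ⊆ U, wgt W p U = p ^ A.card := by
  classical
  have h1 := Finset.prod_add (fun _ : ℝ × ℝ => p) (fun w => if w ∈ A then 0 else 1 - p) W
  have h2 : ∏ w ∈ W, (p + if w ∈ A then 0 else 1 - p) = p ^ A.card := by
    have : ∀ w ∈ W, (p + if w ∈ A then 0 else 1 - p) = if w ∈ A then p else 1 := by
      intro w _
      split_ifs <;> ring
    rw [Finset.prod_congr rfl this, Finset.prod_ite, Finset.prod_const, Finset.prod_const_one,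
      mul_one]
    congr 2
    ext w
    rw [Finset.mem_filter]
    exact ⟨fun hw => hw.2, fun hw => ⟨hA hw, hw⟩⟩
  rw [h2] at h1
  rw [h1, Finset.sum_filter]
  refine Finset.sum_congr rfl fun U hU => ?_
  rw [Finset.prod_const]
  split_ifs with hAU
  · have h3 : ∏ i ∈ W \ U, (if i ∈ A then (0 : ℝ) else 1 - p) = (1 - p) ^ (W \ U).card := by
      rw [← Finset.prod_const]
      refine Finset.prod_congr rfl fun w hw => ?_
      rw [if_neg]
      intro hwA
      exact (Finset.mem_sdiff.mp hw).2 (hAU hwA)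
    rw [h3]
    rfl
  · rw [Finset.not_subset] at hAU
    obtain ⟨w, hw1, hw2⟩ := hAU
    rw [Finset.prod_eq_zero (Finset.mem_sdiff.mpr ⟨hA hw1, hw2⟩) (by rw [if_pos hw1]), mul_zero]

theorem sum_card {β : Type*} (W : Finset (ℝ × ℝ)) (p : ℝ) (S : Finset β)
    (A : β → Finset (ℝ × ℝ)) (k : ℕ) (hA : ∀ s ∈ S, A s ⊆ W) (hk : ∀ s ∈ S, (A s).card = k) :
    ∑ U ∈ W.powerset, wgt W p U * ((S.filter fun s => A s ⊆ U).card : ℝ) = S.card * p ^ k := by
  classical
  have h1 : ∀ U ∈ W.powerset, wgt W p U * ((S.filter fun s => A s ⊆ U).card : ℝ) =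
      ∑ s ∈ S, if A s ⊆ U then wgt W p U else 0 := by
    intro U _
    rw [Finset.card_filter, Nat.cast_sum, Finset.mul_sum]
    refine Finset.sum_congr rfl fun s _ => ?_
    split_ifs <;> simp
  rw [Finset.sum_congr rfl h1, Finset.sum_comm]
  have h2 : ∀ s ∈ S, (∑ U ∈ W.powerset, if A s ⊆ U then wgt W p U else 0) = p ^ k := by
    intro s hs
    rw [← Finset.sum_filter, sum_wgt W p (hA s hs), hk s hs]
  rw [Finset.sum_congr rfl h2, Finset.sum_const, nsmul_eq_mul]

/-- the ends of an arc -/
noncomputable def ends (l r : α → ℝ) (F : α → ℝ → ℝ) (e : α) : Finset (ℝ × ℝ) :=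
  {(l e, F e (l e)), (r e, F e (r e))}

theorem crossing_ineq (h : Arcs W E l r F) {X : Finset (α × α)} (hX : Covers E l r F X)
    (hXE : ∀ q ∈ X, q.1 ∈ E ∧ q.2 ∈ E) (hd : ∀ q ∈ X, Disjoint (ends l r F q.1) (ends l r F q.2))
    {p : ℝ} (hp0 : 0 ≤ p) (hp1 : p ≤ 1) :
    p ^ 2 * E.card ≤ 3 * p * W.card + p ^ 4 * X.card := by
  classical
  have hends : ∀ e, ends l r F e = {(l e, F e (l e)), (r e, F e (r e))} := fun e => rfl
  have hW : ∀ e ∈ E, ends l r F e ⊆ W := by
    intro e he x hx
    rw [hends, Finset.mem_insert, Finset.mem_singleton] at hx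
    rcases hx with rfl | rfl
    · exact h.left e he
    · exact h.right e he
  have hc : ∀ e ∈ E, (ends l r F e).card = 2 := by
    intro e he
    rw [hends, Finset.card_insert_of_notMem, Finset.card_singleton]
    rw [Finset.mem_singleton, Prod.mk.injEq, not_and]
    intro h1
    exact absurd h1 (h.lt e he).ne
  have hwn : ∀ U, 0 ≤ wgt W p U := by
    intro U
    unfold wgt
    exact mul_nonneg (pow_nonneg hp0 _) (pow_nonneg (by linarith) _)
  -- every subset
  have hU : ∀ U ∈ W.powerset, wgt W p U * ((E.filter fun e => ends l r F e ⊆ U).card : ℝ) ≤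
      3 * (wgt W p U * ((W.filter fun w => ({w} : Finset (ℝ × ℝ)) ⊆ U).card : ℝ)) +
        wgt W p U * ((X.filter fun q => ends l r F q.1 ∪ ends l r F q.2 ⊆ U).card : ℝ) := by
    intro U hU
    rw [Finset.mem_powerset] at hU
    set EU := E.filter fun e => ends l r F e ⊆ U with hEU
    have hWU : (W.filter fun w => ({w} : Finset (ℝ × ℝ)) ⊆ U) = U := by
      ext w
      rw [Finset.mem_filter, Finset.singleton_subset_iff]
      exact ⟨fun hw => hw.2, fun hw => ⟨hU hw, hw⟩⟩
    have h1 : Arcs U EU l r F := by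
      refine ⟨h.cont, fun e he => ?_, fun e he => ?_, fun e he => ?_, fun e he w hw => ?_,
        fun e he e' he' => ?_⟩
      · rw [hEU, Finset.mem_filter] at he
        exact h.lt e he.1
      · rw [hEU, Finset.mem_filter] at he
        exact he.2 (by rw [hends]; simp)
      · rw [hEU, Finset.mem_filter] at he
        exact he.2 (by rw [hends]; simp)
      · rw [hEU, Finset.mem_filter] at he
        exact h.inner e he.1 w (hU hw)
      · rw [hEU, Finset.mem_filter] at he he'
        exact h.simple e he.1 e' he'.1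
    have h2 : Covers EU l r F (X.filter fun q => ends l r F q.1 ∪ ends l r F q.2 ⊆ U) := by
      intro e he e' he' hne hcr
      rw [hEU, Finset.mem_filter] at he he'
      rw [Finset.mem_filter, Finset.mem_filter]
      rcases hX e he.1 e' he'.1 hne hcr with h3 | h3
      · exact Or.inl ⟨h3, Finset.union_subset he.2 he'.2⟩
      · exact Or.inr ⟨h3, Finset.union_subset he'.2 he.2⟩
    have h3 := card_le_cross h1 h2
    rw [hWU]
    have h4 : ((EU.card : ℕ) : ℝ) ≤ 3 * (U.card : ℝ) +
        ((X.filter fun q => ends l r F q.1 ∪ ends l r F q.2 ⊆ U).card : ℝ) := by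
      exact_mod_cast h3
    calc wgt W p U * (EU.card : ℝ) ≤ wgt W p U * (3 * (U.card : ℝ) +
        ((X.filter fun q => ends l r F q.1 ∪ ends l r F q.2 ⊆ U).card : ℝ)) :=
          mul_le_mul_of_nonneg_left h4 (hwn U)
      _ = _ := by ring
  have hsum := Finset.sum_le_sum hU
  rw [Finset.sum_add_distrib, ← Finset.mul_sum] at hsum
  rw [sum_card W p E (fun e => ends l r F e) 2 hW hc,
    sum_card W p W (fun w => ({w} : Finset (ℝ × ℝ))) 1
      (fun w hw => Finset.singleton_subset_iff.mpr hw) (fun w _ => Finset.card_singleton w),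
    sum_card W p X (fun q => ends l r F q.1 ∪ ends l r F q.2) 4
      (fun q hq => Finset.union_subset (hW _ (hXE q hq).1) (hW _ (hXE q hq).2))
      (fun q hq => by
        rw [Finset.card_union_of_disjoint (hd q hq), hc _ (hXE q hq).1, hc _ (hXE q hq).2])] at hsum
  linarith

end Pool.Agent.HoroB
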