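import Pool.Agent.HoroB.Cert

set_option autoImplicit false

/-!
# A bound for all finite sets

`Al2 P` is the set of the horocycles determined by `P`; always `|P|² ≤ 40 |Al2 P|`.
-/

open Finset UpperHalfPlane

namespace Pool.Agent.HoroB

/-- the horocycles with at least two points -/
noncomputable def Al2 (P : Finset ℍ) : Finset ((ℝ × ℝ) ⊕ ℝ) := {i ∈ Al P | 2 ≤ (pt P i).card}

theorem card_Ver_le_Al2 (P : Finset ℍ) : (Ver P).card ≤ (Al2 P).card := by
  classical
  refine Finset.card_le_card_of_injOn Sum.inl ?_ (Sum.inl_injective.injOn)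
  intro v hv
  rw [Finset.mem_coe] at hv ⊢
  unfold Al2 Al
  rw [Finset.mem_filter, Finset.inl_mem_disjSum]
  exact ⟨hv, two_le hv⟩

/-- every pair is counted at least twice -/
theorem pairs_all (P : Finset ℍ) :
    2 * (P.card * P.card - P.card) ≤ ∑ i ∈ Al P, ((pt P i).card * (pt P i).card - (pt P i).card) := by
  classical
  have hT : ∀ q ∈ P.offDiag, 2 ≤ ((Al P).filter fun i => q.1 ∈ pt P i ∧ q.2 ∈ pt P i).card := by
    intro q hq
    rw [Finset.mem_offDiag] at hq
    obtain ⟨i, hi, j, hj, hij, hqi, hqj⟩ := two_hor hq.1 hq.2.1 hq.2.2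
    have : 1 < ((Al P).filter fun i => q.1 ∈ pt P i ∧ q.2 ∈ pt P i).card :=
      Finset.one_lt_card.mpr ⟨i, Finset.mem_filter.mpr ⟨hi, hqi⟩, j,
        Finset.mem_filter.mpr ⟨hj, hqj⟩, hij⟩
    omega
  have e1 := Finset.sum_card_bipartiteAbove_eq_sum_card_bipartiteBelow (s := P.offDiag)
    (t := Al P) (fun (q : ℍ × ℍ) i => q.1 ∈ pt P i ∧ q.2 ∈ pt P i)
  simp only [Finset.bipartiteAbove, Finset.bipartiteBelow] at e1
  rw [← Finset.offDiag_card]
  calc 2 * P.offDiag.card = ∑ _q ∈ P.offDiag, 2 := by rw [Finset.sum_const, smul_eq_mul, mul_comm]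
    _ ≤ ∑ q ∈ P.offDiag, ((Al P).filter fun i => q.1 ∈ pt P i ∧ q.2 ∈ pt P i).card :=
        Finset.sum_le_sum hT
    _ = _ := e1
    _ ≤ _ := by
        refine Finset.sum_le_sum fun i _ => ?_
        rw [← Finset.offDiag_card]
        refine Finset.card_le_card ?_
        intro q hq
        rw [Finset.mem_filter, Finset.mem_offDiag] at hq
        rw [Finset.mem_offDiag]
        exact ⟨hq.2.1, hq.2.2, hq.1.2.2⟩

theorem pairs_real (P : Finset ℍ) {A : ℕ} (hA : ∀ i ∈ Al P, (pt P i).card ≤ A) :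
    2 * (P.card * P.card - P.card) ≤
      (∑ v ∈ Ver P, ((on P v).card * (on P v).card - (on P v).card)) + (A - 1) * P.card := by
  classical
  refine (pairs_all P).trans ?_
  have h1 : ∑ i ∈ Al P, ((pt P i).card * (pt P i).card - (pt P i).card) =
      (∑ v ∈ Ver P, ((on P v).card * (on P v).card - (on P v).card)) +
      ∑ c ∈ P.image UpperHalfPlane.im, ((pt P (Sum.inr c)).card * (pt P (Sum.inr c)).card -
        (pt P (Sum.inr c)).card) := by
    unfold Al
    rw [Finset.sum_disjSum]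
    rfl
  rw [h1]
  refine Nat.add_le_add_left ?_ _
  calc ∑ c ∈ P.image UpperHalfPlane.im, ((pt P (Sum.inr c)).card * (pt P (Sum.inr c)).card -
        (pt P (Sum.inr c)).card)
      ≤ ∑ c ∈ P.image UpperHalfPlane.im, (A - 1) * (pt P (Sum.inr c)).card := by
        refine Finset.sum_le_sum fun c hc => ?_
        have h2 : (pt P (Sum.inr c)).card ≤ A := hA _ (by
          unfold Al
          rw [Finset.inr_mem_disjSum]
          exact hc)
        have h3 : (pt P (Sum.inr c)).card * (pt P (Sum.inr c)).card - (pt P (Sum.inr c)).card =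
            ((pt P (Sum.inr c)).card - 1) * (pt P (Sum.inr c)).card := by
          rw [Nat.sub_mul, one_mul]
        rw [h3]
        exact Nat.mul_le_mul_right _ (by omega)
    _ = (A - 1) * P.card := by
        rw [← Finset.mul_sum]
        congr 1
        exact (Finset.card_eq_sum_card_image UpperHalfPlane.im P).symm

/-- the other horocycles through the pairs of points of a horocycle -/
theorem rich (P : Finset ℍ) {i : (ℝ × ℝ) ⊕ ℝ} (hi : i ∈ Al2 P) :
    (pt P i).card * (pt P i).card - (pt P i).card + 2 ≤ 2 * (Al2 P).card := by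
  classical
  have h1 : ∀ q ∈ (pt P i).offDiag, ∃ j ∈ (Al2 P).erase i, q.1 ∈ pt P j ∧ q.2 ∈ pt P j := by
    intro q hq
    rw [Finset.mem_offDiag] at hq
    obtain ⟨hq1, hq2, hne⟩ := hq
    obtain ⟨j, hj, k, hk, hjk, hqj, hqk⟩ := two_hor (pt_sub P i hq1) (pt_sub P i hq2) hne
    have hc : ∀ j, q.1 ∈ pt P j ∧ q.2 ∈ pt P j → 2 ≤ (pt P j).card := by
      intro j hj
      have : 1 < (pt P j).card := Finset.one_lt_card.mpr ⟨q.1, hj.1, q.2, hj.2, hne⟩
      omega
    by_cases hji : j = i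
    · refine ⟨k, Finset.mem_erase.mpr ⟨fun hki => hjk (hji.trans hki.symm),
        Finset.mem_filter.mpr ⟨hk, hc k hqk⟩⟩, hqk⟩
    · exact ⟨j, Finset.mem_erase.mpr ⟨hji, Finset.mem_filter.mpr ⟨hj, hc j hqj⟩⟩, hqj⟩
  have h2 : (pt P i).offDiag ⊆ ((Al2 P).erase i).biUnion fun j => (pt P i ∩ pt P j).offDiag := by
    intro q hq
    obtain ⟨j, hj, hqj⟩ := h1 q hq
    rw [Finset.mem_offDiag] at hq
    rw [Finset.mem_biUnion]
    refine ⟨j, hj, ?_⟩
    rw [Finset.mem_offDiag, Finset.mem_inter, Finset.mem_inter]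
    exact ⟨⟨hq.1, hqj.1⟩, ⟨hq.2.1, hqj.2⟩, hq.2.2⟩
  have h3 := Finset.card_le_card h2
  rw [Finset.offDiag_card] at h3
  have h4 : (((Al2 P).erase i).biUnion fun j => (pt P i ∩ pt P j).offDiag).card ≤
      ((Al2 P).erase i).card * 2 := by
    refine Finset.card_biUnion_le.trans ?_
    rw [← smul_eq_mul, ← Finset.sum_const]
    refine Finset.sum_le_sum fun j hj => ?_
    have := card_inter_le P (Finset.mem_erase.mp hj).1.symm
    rw [Finset.offDiag_card]
    set c := (pt P i ∩ pt P j).card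
    interval_cases c <;> simp
  rw [Finset.card_erase_of_mem hi] at h4
  have h5 : 0 < (Al2 P).card := Finset.card_pos.mpr ⟨i, hi⟩
  omega

/-- the main inequality for sets without rich horocycles -/
theorem main_ineq' (P : Finset ℍ) {M : ℕ} (hM : ∀ v ∈ Ver P, (on P v).card < M) :
    ∑ v ∈ Ver P, ((on P v).card : ℝ) * (((on P v).card : ℝ) - 1) / 2 ≤
      107 / 10 * ((Ver P).card : ℝ) + 129 / 10 * (P.card : ℝ) +
        177 / 1000 * (13 / 5) ^ 2 * (2 * (P.card : ℝ)) * ((M - 3 : ℕ) : ℝ) := by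
  classical
  have h1 : ∑ v ∈ Ver P, ((on P v).card : ℝ) * (((on P v).card : ℝ) - 1) / 2 ≤
      ∑ v ∈ Ver P, (107 / 10 + 129 / 20 * (((on P v).card : ℝ) - 3) +
        ∑ K ∈ Finset.Ico 3 M, ctr (on P v).card K) := by
    refine Finset.sum_le_sum fun v hv => ?_
    have h2 := cert_small (two_le hv) (hM v hv)
    linarith
  have h3 : ∑ v ∈ Ver P, ∑ K ∈ Finset.Ico 3 M, ctr (on P v).card K ≤
      177 / 1000 * (13 / 5) ^ 2 * (2 * (P.card : ℝ)) * ((M - 3 : ℕ) : ℝ) := by
    rw [Finset.sum_comm]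
    calc ∑ K ∈ Finset.Ico 3 M, ∑ v ∈ Ver P, ctr (on P v).card K
        ≤ ∑ _K ∈ Finset.Ico 3 M, 177 / 1000 * (13 / 5) ^ 2 * (2 * (P.card : ℝ)) :=
          Finset.sum_le_sum fun K hK => level P (Finset.mem_Ico.mp hK).1
      _ = ((M - 3 : ℕ) : ℝ) * (177 / 1000 * (13 / 5) ^ 2 * (2 * (P.card : ℝ))) := by
          rw [Finset.sum_const, Nat.card_Ico, nsmul_eq_mul]
      _ = _ := by ring
  have h4 := melchior P
  rw [Finset.sum_add_distrib, Finset.sum_add_distrib, Finset.sum_const, nsmul_eq_mul,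
    ← Finset.mul_sum, Finset.sum_sub_distrib, Finset.sum_const, nsmul_eq_mul] at h1
  linarith

/-- Melchior-type inequality for all determined horocycles -/
theorem melchior2 (P : Finset ℍ) :
    ∑ i ∈ Al2 P, (pt P i).card ≤ 3 * (Al2 P).card + 3 * P.card := by
  classical
  have h1 : Al2 P = (Ver P).disjSum
      {c ∈ P.image UpperHalfPlane.im | 2 ≤ (pt P (Sum.inr c)).card} := by
    ext i
    unfold Al2 Al
    rcases i with v | c
    · rw [Finset.mem_filter, Finset.inl_mem_disjSum, Finset.inl_mem_disjSum]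
      exact ⟨fun h => h.1, fun h => ⟨h, two_le h⟩⟩
    · rw [Finset.mem_filter, Finset.inr_mem_disjSum, Finset.inr_mem_disjSum, Finset.mem_filter]
  have h2 : (Ver P).card ≤ (Al2 P).card := card_Ver_le_Al2 P
  have h3 : ∑ v ∈ Ver P, (on P v).card ≤ 3 * (Ver P).card + 2 * P.card := by
    have := melchior P
    exact_mod_cast this
  have h4 : ∑ c ∈ P.image UpperHalfPlane.im with 2 ≤ (pt P (Sum.inr c)).card,
      (pt P (Sum.inr c)).card ≤ P.card := by
    calc _ ≤ ∑ c ∈ P.image UpperHalfPlane.im, (pt P (Sum.inr c)).card :=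
          Finset.sum_le_sum_of_subset (Finset.filter_subset _ _)
      _ = P.card := (Finset.card_eq_sum_card_image UpperHalfPlane.im P).symm
  have h5 : ∑ i ∈ Al2 P, (pt P i).card = (∑ v ∈ Ver P, (on P v).card) +
      ∑ c ∈ P.image UpperHalfPlane.im with 2 ≤ (pt P (Sum.inr c)).card,
        (pt P (Sum.inr c)).card := by
    rw [h1, Finset.sum_disjSum]
    rfl
  omega

/-- sets without rich horocycles -/
theorem few (P : Finset ℍ) {M : ℕ} (hM : ∀ i ∈ Al P, (pt P i).card ≤ M) :
    2 * (P.card * P.card - P.card) ≤ M * (2 * (Al2 P).card + 3 * P.card) := by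
  classical
  have h1 : ∑ i ∈ Al P, ((pt P i).card * (pt P i).card - (pt P i).card) ≤
      ∑ i ∈ Al P, M * ((pt P i).card - 1) := by
    refine Finset.sum_le_sum fun i hi => ?_
    have h3 : (pt P i).card * (pt P i).card - (pt P i).card =
        (pt P i).card * ((pt P i).card - 1) := by
      rw [Nat.mul_sub, mul_one]
    rw [h3]
    exact Nat.mul_le_mul_right _ (hM i hi)
  rw [← Finset.mul_sum] at h1
  have h2 : ∑ i ∈ Al P, ((pt P i).card - 1) = ∑ i ∈ Al2 P, ((pt P i).card - 1) := by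
    unfold Al2
    rw [Finset.sum_filter]
    refine Finset.sum_congr rfl fun i _ => ?_
    split_ifs with h
    · rfl
    · omega
  have h3 : ∑ i ∈ Al2 P, ((pt P i).card - 1) + (Al2 P).card = ∑ i ∈ Al2 P, (pt P i).card := by
    rw [Finset.card_eq_sum_ones, ← Finset.sum_add_distrib]
    refine Finset.sum_congr rfl fun i hi => ?_
    have := (Finset.mem_filter.mp hi).2
    omega
  have h4 := melchior2 P
  have h5 : ∑ i ∈ Al2 P, ((pt P i).card - 1) ≤ 2 * (Al2 P).card + 3 * P.card := by omega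
  rw [h2] at h1
  exact (pairs_all P).trans (h1.trans (Nat.mul_le_mul_left _ h5))

theorem small_case {n A : ℕ} (hA : 2 ≤ A) (hn : n ≤ 118) (h1 : 20 * (A * A - A + 2) < n * n)
    (h2 : 40 * n < A * (n + 60) + 20) : False := by
  have h3 : A ≤ 26 := by
    by_contra hcon
    have h4 : 27 ≤ A := by omega
    have h5 : 702 ≤ A * A - A := by
      have : 27 * A ≤ A * A := Nat.mul_le_mul_right _ h4
      omega
    have h6 : n * n ≤ 118 * 118 := Nat.mul_le_mul hn hn
    omega
  have h4 : (A : ℤ) * A - A = ((A * A - A : ℕ) : ℤ) := by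
    rw [Nat.cast_sub (Nat.le_mul_self A)]
    push_cast
    rfl
  interval_cases A <;> norm_num at h1 h2 <;> nlinarith

theorem uniform (P : Finset ℍ) (hP : 2 ≤ P.card) : P.card ^ 2 ≤ 40 * (Al2 P).card := by
  classical
  set n := P.card with hn
  by_contra hcon
  rw [not_le] at hcon
  set A := (Al P).sup fun i => (pt P i).card with hAdef
  have hA : ∀ i ∈ Al P, (pt P i).card ≤ A := fun i hi =>
    Finset.le_sup (f := fun i => (pt P i).card) hi
  obtain ⟨z, hz, w, hw, hzw⟩ := Finset.one_lt_card.mp (show 1 < P.card by omega)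
  obtain ⟨i0, hi0, -, -, -, hq0, -⟩ := two_hor hz hw hzw
  have hA2 : 2 ≤ A := by
    have h1 : 1 < (pt P i0).card := Finset.one_lt_card.mpr ⟨z, hq0.1, w, hq0.2, hzw⟩
    have := hA i0 hi0
    omega
  obtain ⟨i1, hi1, hi1A⟩ := Finset.exists_mem_eq_sup (Al P) ⟨i0, hi0⟩ fun i => (pt P i).card
  rw [← hAdef] at hi1A
  have ha := rich P (i := i1) (Finset.mem_filter.mpr ⟨hi1, by omega⟩)
  rw [← hi1A] at ha
  have ha' : 20 * (A * A - A + 2) < n * n := by
    rw [pow_two] at hcon
    omega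
  have hV := card_Ver_le_Al2 P
  have hpr := pairs_real P hA
  rw [← hn] at hpr
  have hVA : ∀ v ∈ Ver P, (on P v).card ≤ A := fun v hv => hA (Sum.inl v) (by
    unfold Al
    rw [Finset.inl_mem_disjSum]
    exact hv)
  have r0 : ((2 * (n * n - n) : ℕ) : ℝ) ≤
      (((∑ v ∈ Ver P, ((on P v).card * (on P v).card - (on P v).card)) + (A - 1) * n : ℕ) : ℝ) := by
    exact_mod_cast hpr
  have r1 : 2 * ((n : ℝ) * n - n) ≤
      (∑ v ∈ Ver P, ((on P v).card : ℝ) * (((on P v).card : ℝ) - 1)) + ((A : ℝ) - 1) * n := by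
    push_cast [Nat.cast_sub (Nat.le_mul_self n), Nat.cast_sub (show 1 ≤ A by omega)] at r0
    have : ∑ v ∈ Ver P, (((on P v).card * (on P v).card - (on P v).card : ℕ) : ℝ) =
        ∑ v ∈ Ver P, ((on P v).card : ℝ) * (((on P v).card : ℝ) - 1) := by
      refine Finset.sum_congr rfl fun v _ => ?_
      rw [Nat.cast_sub (Nat.le_mul_self _)]
      push_cast
      ring
    rw [this] at r0
    exact r0
  have hnA : (2 : ℝ) ≤ A := by exact_mod_cast hA2
  have hn2 : (2 : ℝ) ≤ n := by exact_mod_cast hP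
  have hVr : (40 : ℝ) * (Ver P).card < n * n := by
    have : 40 * (Ver P).card < n * n := by
      rw [pow_two] at hcon
      omega
    exact_mod_cast this
  rcases le_or_gt n 118 with hs | hs
  · -- few points
    refine small_case hA2 hs ha' ?_
    have h1 : ∑ v ∈ Ver P, ((on P v).card : ℝ) * (((on P v).card : ℝ) - 1) ≤
        ∑ v ∈ Ver P, (A : ℝ) * (((on P v).card : ℝ) - 1) := by
      refine Finset.sum_le_sum fun v hv => ?_
      have h2 : (2 : ℝ) ≤ ((on P v).card : ℝ) := by exact_mod_cast two_le hv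
      have h3 : ((on P v).card : ℝ) ≤ A := by exact_mod_cast hVA v hv
      exact mul_le_mul_of_nonneg_right h3 (by linarith)
    rw [← Finset.mul_sum, Finset.sum_sub_distrib, Finset.sum_const, nsmul_eq_mul, mul_one] at h1
    have h4 := melchior P
    rw [← hn] at h4
    have h5 : (A : ℝ) * ((∑ v ∈ Ver P, ((on P v).card : ℝ)) - (Ver P).card) ≤
        A * (2 * (Ver P).card + 2 * n) := mul_le_mul_of_nonneg_left (by linarith) (by linarith)
    have h6 : (A : ℝ) * (40 * (Ver P).card) ≤ A * (n * n) :=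
      mul_le_mul_of_nonneg_left hVr.le (by linarith)
    have h7 : (n : ℝ) * (40 * n) < n * (A * (n + 60) + 20) := by nlinarith
    have h8 : (40 : ℝ) * n < A * (n + 60) + 20 := lt_of_mul_lt_mul_left h7 (by linarith)
    exact_mod_cast h8
  · -- many points
    have h1 := main_ineq' P (M := A + 1) fun v hv => Nat.lt_succ_iff.mpr (hVA v hv)
    rw [← Finset.sum_div, ← hn] at h1
    have h2 : ((A + 1 - 3 : ℕ) : ℝ) = (A : ℝ) - 2 := by
      rw [Nat.cast_sub (by omega)]
      push_cast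
      ring
    rw [h2] at h1
    have h3 : (119 : ℝ) ≤ n := by exact_mod_cast hs
    have h4 : 20 * ((A : ℝ) * A - A + 2) < n * n := by
      have : ((20 * (A * A - A + 2) : ℕ) : ℝ) < ((n * n : ℕ) : ℝ) := by exact_mod_cast ha'
      push_cast [Nat.cast_sub (Nat.le_mul_self A)] at this
      exact this
    have h5 : (n : ℝ) * (7325 / 10000 * n) < n * (8614 / 1000 + 289305 / 100000 * A) := by nlinarith
    have h6 : (7325 / 10000 : ℝ) * n < 8614 / 1000 + 289305 / 100000 * A :=
      lt_of_mul_lt_mul_left h5 (by linarith)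
    nlinarith

end Pool.Agent.HoroB
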