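import Pool.Agent.HoroB.Low
import Pool.Agent.HoroB.Uni
import Pool.Agent.Hhelper97.Horo.Golden

/-!
# The bounds in terms of the definitions of `Pool.Agent.Hhelper97.Horo.Defs`
-/

set_option autoImplicit false

namespace Pool.Agent.HoroB.Fin

open Finset UpperHalfPlane Pool.Agent.Hhelper97.Horo
open Pool.Agent.HoroB (ff ff_mul ff_pos re_add on mem_on Ver mem_Ver two_le lower melchior Al Al2
  mem_inr uniform few)

/-- the horocycle with centre and euclidean diameter `v` -/
def C (v : ℝ × ℝ) : Set ℍ := circ v.1 (v.2 / 2)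

theorem mem_C {v : ℝ × ℝ} {z : ℍ} : z ∈ C v ↔ ff z v.1 = v.2 := by
  unfold C circ
  rw [Set.mem_ofPred_eq]
  have h1 := ff_mul z v.1
  constructor
  · intro hz
    have : (ff z v.1 - v.2) * z.im = 0 := by linear_combination h1 + hz
    rcases mul_eq_zero.mp this with h2 | h2
    · linarith
    · exact absurd h2 z.im_pos.ne'
  · intro hz
    rw [hz] at h1
    linear_combination -h1

theorem C_inj {v w : ℝ × ℝ} (hv : 0 < v.2) (hvw : C v = C w) : v = w := by
  obtain ⟨a, s⟩ := v
  obtain ⟨b, t⟩ := w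
  simp only at hv
  have key : ∀ z : ℍ, ff z a = s → ff z b = t := by
    intro z hz
    have h1 : z ∈ C (a, s) := mem_C.mpr hz
    rw [hvw] at h1
    exact mem_C.mp h1
  set z1 : ℍ := ⟨⟨a + s / 2, s / 2⟩, by simp only; linarith⟩ with hz1
  set z2 : ℍ := ⟨⟨a - s / 2, s / 2⟩, by simp only; linarith⟩ with hz2
  set z3 : ℍ := ⟨⟨a, s⟩, hv⟩ with hz3
  have r1 : z1.re = a + s / 2 := rfl
  have i1 : z1.im = s / 2 := rfl
  have r2 : z2.re = a - s / 2 := rfl
  have i2 : z2.im = s / 2 := rfl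
  have r3 : z3.re = a := rfl
  have i3 : z3.im = s := rfl
  have k1 := key z1 (by unfold ff; rw [r1, i1]; field_simp; ring)
  have k2 := key z2 (by unfold ff; rw [r2, i2]; field_simp; ring)
  have k3 := key z3 (by unfold ff; rw [r3, i3]; field_simp; ring)
  have hne : z1 ≠ z2 := by
    intro hh
    have : z1.re = z2.re := by rw [hh]
    rw [r1, r2] at this
    linarith
  have h1 := re_add hne (by rw [i1, i2]) (k1.trans k2.symm)
  rw [r1, r2] at h1
  have hab : a = b := by linarith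
  subst hab
  refine Prod.ext rfl ?_
  simp only
  rw [← k3]
  unfold ff
  rw [r3, i3]
  field_simp
  ring

theorem pos_of_mem {P : Finset ℍ} {v : ℝ × ℝ} (hv : v ∈ Ver P) : 0 < v.2 := by
  rw [mem_Ver] at hv
  obtain ⟨z, hz, -⟩ := hv
  rw [← (mem_on.mp hz).2]
  exact ff_pos z v.1

theorem C_injOn (P : Finset ℍ) : Set.InjOn C (Ver P : Set (ℝ × ℝ)) := by
  intro v hv w _ hvw
  exact C_inj (pos_of_mem (Finset.mem_coe.mp hv)) hvw

theorem C_mem {P : Finset ℍ} {v : ℝ × ℝ} (hv : v ∈ Ver P) : C v ∈ determined P := by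
  refine ⟨Or.inr ⟨v.1, v.2 / 2, by have := pos_of_mem hv; linarith, rfl⟩, ?_⟩
  rw [mem_Ver] at hv
  obtain ⟨z, hz, w, hw, hne⟩ := hv
  rw [mem_on] at hz hw
  exact ⟨z, hz.1, w, hw.1, hne, mem_C.mpr hz.2, mem_C.mpr hw.2⟩

theorem det_cases {P : Finset ℍ} {H : Set ℍ} (hH : H ∈ determined P) :
    (∃ v ∈ Ver P, C v = H) ∨ (∃ c ∈ P.image UpperHalfPlane.im, hline c = H) := by
  classical
  obtain ⟨h1, p, hp, q, hq, hne, hpH, hqH⟩ := hH
  rcases h1 with ⟨c, -, rfl⟩ | ⟨x, r, -, rfl⟩
  · right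
    refine ⟨c, Finset.mem_image.mpr ⟨p, hp, ?_⟩, rfl⟩
    exact hpH
  · left
    have hC : C (x, 2 * r) = circ x r := by
      unfold C
      simp only
      congr 1
      ring
    rw [← hC] at hpH hqH
    refine ⟨(x, 2 * r), ?_, hC⟩
    rw [mem_Ver]
    exact ⟨p, mem_on.mpr ⟨hp, mem_C.mp hpH⟩, q, mem_on.mpr ⟨hq, mem_C.mp hqH⟩, hne⟩

theorem finite_det (P : Finset ℍ) : (determined P).Finite := by
  classical
  refine Set.Finite.subset
    (((Ver P).image C ∪ (P.image UpperHalfPlane.im).image hline).finite_toSet) ?_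
  intro H hH
  rw [Finset.mem_coe, Finset.mem_union, Finset.mem_image, Finset.mem_image]
  exact det_cases hH

theorem card_Ver_le (P : Finset ℍ) : #(Ver P) ≤ h P := by
  classical
  unfold h
  rw [← Finset.card_image_of_injOn (C_injOn P), ← Set.ncard_coe_finset]
  refine Set.ncard_le_ncard ?_ (finite_det P)
  intro H hH
  rw [Finset.mem_coe, Finset.mem_image] at hH
  obtain ⟨v, hv, rfl⟩ := hH
  exact C_mem hv

open Classical in
theorem melchior_all (P : Finset ℍ) (T : Finset (Set ℍ)) (hT : ∀ H, H ∈ T ↔ H ∈ determined P) :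
    ∑ H ∈ T, #{z ∈ P | z ∈ H} ≤ 3 * #T + 3 * #P := by
  set T1 := (Ver P).image C with hT1
  have hsub : T1 ⊆ T := by
    intro H hH
    rw [hT1, Finset.mem_image] at hH
    obtain ⟨v, hv, rfl⟩ := hH
    exact (hT _).mpr (C_mem hv)
  have h1 : ∑ H ∈ T1, #{z ∈ P | z ∈ H} ≤ 3 * #T1 + 2 * #P := by
    rw [hT1, Finset.sum_image (C_injOn P), Finset.card_image_of_injOn (C_injOn P)]
    have h2 : ∑ v ∈ Ver P, #{z ∈ P | z ∈ C v} = ∑ v ∈ Ver P, #(on P v) := by
      refine Finset.sum_congr rfl fun v _ => ?_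
      congr 1
      ext z
      rw [Finset.mem_filter, mem_on, mem_C]
    rw [h2]
    have h3 := melchior P
    exact_mod_cast h3
  have h4 : ∑ H ∈ T \ T1, #{z ∈ P | z ∈ H} ≤ #P := by
    have hinj : Set.InjOn hline ((P.image UpperHalfPlane.im : Finset ℝ) : Set ℝ) := by
      intro c hc c' _ hcc
      rw [Finset.mem_coe, Finset.mem_image] at hc
      obtain ⟨z, -, rfl⟩ := hc
      have h5 : z ∈ hline z.im := rfl
      rw [hcc] at h5
      exact h5
    calc ∑ H ∈ T \ T1, #{z ∈ P | z ∈ H}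
        ≤ ∑ H ∈ (P.image UpperHalfPlane.im).image hline, #{z ∈ P | z ∈ H} := by
          refine Finset.sum_le_sum_of_subset ?_
          intro H hH
          rw [Finset.mem_sdiff] at hH
          rcases det_cases ((hT H).mp hH.1) with ⟨v, hv, rfl⟩ | h5
          · exact absurd (Finset.mem_image_of_mem C hv) hH.2
          · rw [Finset.mem_image]
            exact h5
      _ = ∑ c ∈ P.image UpperHalfPlane.im, #{z ∈ P | z.im = c} := by
          rw [Finset.sum_image hinj]
          rfl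
      _ = #P := (Finset.card_eq_sum_card_image UpperHalfPlane.im P).symm
  have h5 := Finset.sum_sdiff hsub (f := fun H => #{z ∈ P | z ∈ H})
  have h6 := Finset.card_le_card hsub
  omega

/-- the horocycle of an index -/
def Phi : (ℝ × ℝ) ⊕ ℝ → Set ℍ
  | Sum.inl v => C v
  | Sum.inr c => hline c

theorem C_ne_hline {v : ℝ × ℝ} (hv : 0 < v.2) (c : ℝ) : C v ≠ hline c := by
  obtain ⟨a, s⟩ := v
  simp only at hv
  intro hh
  set z1 : ℍ := ⟨⟨a + s / 2, s / 2⟩, by simp only; linarith⟩ with hz1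
  set z3 : ℍ := ⟨⟨a, s⟩, hv⟩ with hz3
  have r1 : z1.re = a + s / 2 := rfl
  have i1 : z1.im = s / 2 := rfl
  have r3 : z3.re = a := rfl
  have i3 : z3.im = s := rfl
  have m1 : z1 ∈ C (a, s) := mem_C.mpr (by unfold ff; rw [r1, i1]; field_simp; ring)
  have m3 : z3 ∈ C (a, s) := mem_C.mpr (by unfold ff; rw [r3, i3]; field_simp; ring)
  rw [hh] at m1 m3
  have h1 : z1.im = c := m1
  have h3 : z3.im = c := m3
  rw [i1] at h1
  rw [i3] at h3
  linarith

theorem card_Al2_le (P : Finset ℍ) : #(Al2 P) ≤ h P := by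
  classical
  have hmem : ∀ i ∈ Al2 P, Phi i ∈ determined P := by
    intro i hi
    have h1 := Finset.mem_filter.mp hi
    rcases i with v | c
    · refine C_mem ?_
      have := h1.1
      unfold Al at this
      rw [Finset.inl_mem_disjSum] at this
      exact this
    · obtain ⟨z, hz, w, hw, hne⟩ := Finset.one_lt_card.mp (show 1 < _ from h1.2)
      rw [mem_inr] at hz hw
      refine ⟨Or.inl ⟨c, ?_, rfl⟩, z, hz.1, w, hw.1, hne, hz.2, hw.2⟩
      rw [← hz.2]
      exact z.im_pos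
  have hinj : Set.InjOn Phi (Al2 P : Set ((ℝ × ℝ) ⊕ ℝ)) := by
    have hv : ∀ v, Sum.inl v ∈ Al2 P → 0 < v.2 := by
      intro v hv
      have := (Finset.mem_filter.mp hv).1
      unfold Al at this
      rw [Finset.inl_mem_disjSum] at this
      exact pos_of_mem this
    rintro (v | c) hi (w | d) hj hij
    · rw [C_inj (hv v hi) hij]
    · exact absurd hij (C_ne_hline (hv v hi) d)
    · exact absurd hij.symm (C_ne_hline (hv w hj) c)
    · obtain ⟨-, z, -, w, -, -, hz, -⟩ := hmem _ hi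
      have h1 : z.im = c := hz
      have h2 : z ∈ Phi (Sum.inr d) := by rw [← hij]; exact hz
      have h3 : z.im = d := h2
      rw [← h1, ← h3]
  unfold h
  rw [← Finset.card_image_of_injOn hinj, ← Set.ncard_coe_finset]
  refine Set.ncard_le_ncard ?_ (finite_det P)
  intro H hH
  rw [Finset.mem_coe, Finset.mem_image] at hH
  obtain ⟨i, hi, rfl⟩ := hH
  exact hmem i hi

open Classical in
theorem few_all (P : Finset ℍ) (M : ℕ) (hM : ∀ H, IsHorocycle H → #{z ∈ P | z ∈ H} ≤ M) :
    2 * (#P * (#P - 1)) ≤ M * (2 * h P + 3 * #P) := by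
  have h1 := few P (M := M) fun i hi => by
    unfold Al at hi
    rcases i with v | c
    · rw [Finset.inl_mem_disjSum] at hi
      have h2 := hM (C v) (C_mem hi).1
      have h3 : ({z ∈ P | z ∈ C v} : Finset ℍ) = Pool.Agent.HoroB.pt P (Sum.inl v) := by
        ext z
        rw [Finset.mem_filter, mem_C]
        exact (mem_on (P := P) (v := v)).symm
      rw [← h3]
      exact h2
    · rw [Finset.inr_mem_disjSum, Finset.mem_image] at hi
      obtain ⟨w, -, hw⟩ := hi
      have h2 := hM (hline c) (Or.inl ⟨c, by rw [← hw]; exact w.im_pos, rfl⟩)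
      exact h2
  have h2 := card_Al2_le P
  rw [Nat.mul_sub, mul_one]
  refine h1.trans (Nat.mul_le_mul_left _ ?_)
  omega

/-- a bound for all finite sets -/
theorem card_sq_le (P : Finset ℍ) (hP : 2 ≤ #P) : #P ^ 2 ≤ 40 * h P := by
  have h1 := uniform P hP
  have h2 := card_Al2_le P
  omega

/-- a bound for large sets -/
theorem card_sq_le' (P : Finset ℍ) (hP : 100000000 ≤ #P) : 2 * #P ^ 2 ≤ 25 * h P := by
  have h1 := lower P hP
  have h2 := card_Ver_le P
  omega

end Pool.Agent.HoroB.Fin
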