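import Pool.Agent.HoroB.Cert

set_option autoImplicit false

/-!
# The lower bound for the number of horocycles with real centre
-/

open Finset UpperHalfPlane

namespace Pool.Agent.HoroB

theorem lower (P : Finset ℍ) (hn : 100000000 ≤ P.card) : 2 * P.card ^ 2 ≤ 25 * (Ver P).card := by
  classical
  set n := P.card with hnd
  set M := n / 200 + 1 with hM
  have hM1 : n < 200 * M := by omega
  have hM2 : 200 * M ≤ n + 200 := by omega
  have hb : (big P M).card < 210 := card_big_lt P (by rw [← hnd]; omega)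
  obtain ⟨q, hq1, hq2⟩ := pairs_le P M
  rw [← hnd] at hq1
  have hq3 := hq2.trans (sum_lines P M)
  rw [← hnd] at hq3
  have hq4 : n ≤ q + 87362 := by
    have : (big P M).card ^ 2 ≤ 209 ^ 2 := Nat.pow_le_pow_left (by omega) 2
    omega
  have hmain := main_ineq P M
  rw [← hnd] at hmain
  have r1 : ((2 * (q * q - q) : ℕ) : ℝ) ≤
      (((∑ v ∈ Ver P with (on P v).card < M, (on P v).card ^ 2) + M * n : ℕ) : ℝ) := by
    exact_mod_cast hq3
  rw [← Finset.sum_div] at hmain
  push_cast [Nat.cast_sub (Nat.le_mul_self q)] at r1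
  have r2 : (100000000 : ℝ) ≤ n := by exact_mod_cast hn
  have r3 : (200 : ℝ) * M ≤ n + 200 := by exact_mod_cast hM2
  have r4 : (n : ℝ) ≤ q + 87362 := by exact_mod_cast hq4
  set S : ℝ := ∑ v ∈ Ver P with (on P v).card < M, ((on P v).card : ℝ) ^ 2
  set V : ℝ := ((Ver P).card : ℝ)
  have r5 : (n : ℝ) * (200 * M) ≤ n * (n + 200) :=
    mul_le_mul_of_nonneg_left r3 (by linarith)
  have r6 : 0 ≤ ((q : ℝ) - (n - 87362)) * (q + n - 87363) :=
    mul_nonneg (by linarith) (by linarith)
  have r7 : (100000000 : ℝ) * n ≤ n * n := mul_le_mul_of_nonneg_right r2 (by linarith)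
  have r8 : 2 * (n : ℝ) ^ 2 ≤ 25 * V := by
    linarith
  have r9 : ((2 * n ^ 2 : ℕ) : ℝ) ≤ ((25 * (Ver P).card : ℕ) : ℝ) := by
    push_cast
    exact r8
  exact_mod_cast r9

end Pool.Agent.HoroB
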