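import Mathlib

set_option autoImplicit false

/-!
# Non-crossing graphs of functions: at most `3 |W|` arcs

`E` is a finite set of arcs; the arc `e` is the graph of the continuous function `F e` over
`(l e, r e)`, its ends are in the finite set `W`, no point of `W` lies inside an arc, two arcs do
not cross and do not have the same two ends. Then `|E| ≤ 3 |W|`. (An arc is the highest one at its
right end, or the highest one at its left end, or it is the arc just below a point of `W`.)
-/

open Finset Filter Topology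

namespace Pool.Agent.HoroB

/-- hypotheses on the arcs -/
structure Arcs {α : Type*} (W : Finset (ℝ × ℝ)) (E : Finset α) (l r : α → ℝ) (F : α → ℝ → ℝ) :
    Prop where
  cont : ∀ e, Continuous (F e)
  lt : ∀ e ∈ E, l e < r e
  left : ∀ e ∈ E, (l e, F e (l e)) ∈ W
  right : ∀ e ∈ E, (r e, F e (r e)) ∈ W
  inner : ∀ e ∈ E, ∀ w ∈ W, l e < w.1 → w.1 < r e → w.2 ≠ F e w.1
  simple : ∀ e ∈ E, ∀ e' ∈ E, e ≠ e' → l e = l e' → r e = r e' → F e (l e) = F e' (l e) →
    F e (r e) = F e' (r e) → False

variable {α : Type*} {W : Finset (ℝ × ℝ)} {E : Finset α} {l r : α → ℝ} {F : α → ℝ → ℝ}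

/-- `e'` is above `e` somewhere -/
def Above (l r : α → ℝ) (F : α → ℝ → ℝ) (e e' : α) : Prop :=
  ∃ x, l e < x ∧ x < r e ∧ l e' < x ∧ x < r e' ∧ F e x < F e' x

/-- no crossing -/
def NoCross (E : Finset α) (l r : α → ℝ) (F : α → ℝ → ℝ) : Prop :=
  ∀ e ∈ E, ∀ e' ∈ E, e ≠ e' → ∀ x, l e < x → x < r e → l e' < x → x < r e' → F e x ≠ F e' x

/-- `g` is the lowest arc above `e` at `x` -/
def Low (E : Finset α) (l r : α → ℝ) (F : α → ℝ → ℝ) (e : α) (g : α) (x : ℝ) : Prop :=
  (l g < x ∧ x < r g ∧ F e x < F g x) ∧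
    ∀ g' ∈ E, l g' < x → x < r g' → F e x < F g' x → F g x ≤ F g' x

/-- `w` is visible from `e` -/
def Vis (E : Finset α) (l r : α → ℝ) (F : α → ℝ → ℝ) (e : α) (w : ℝ × ℝ) : Prop :=
  l e < w.1 ∧ w.1 < r e ∧ F e w.1 < w.2 ∧
    ∀ g ∈ E, l g < w.1 → w.1 < r g → F e w.1 < F g w.1 → w.2 ≤ F g w.1

theorem above_all (h : Arcs W E l r F) (hn : NoCross E l r F) {e e' : α} (he : e ∈ E)
    (he' : e' ∈ E) (ha : Above l r F e e') {x : ℝ} (h1 : l e < x) (h2 : x < r e) (h3 : l e' < x)
    (h4 : x < r e') : F e x < F e' x := by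
  obtain ⟨y, y1, y2, y3, y4, hy⟩ := ha
  have hne : e ≠ e' := by
    rintro rfl
    exact lt_irrefl _ hy
  by_contra hx
  rw [not_lt] at hx
  have hc : Continuous fun t => F e' t - F e t := (h.cont e').sub (h.cont e)
  have hmem : (0 : ℝ) ∈ Set.uIcc (F e' x - F e x) (F e' y - F e y) := by
    rw [Set.mem_uIcc]
    left
    constructor <;> linarith
  obtain ⟨z, hz, hz0⟩ := intermediate_value_uIcc hc.continuousOn hmem
  have hz1 : l e < z ∧ z < r e ∧ l e' < z ∧ z < r e' := by
    rw [Set.mem_uIcc] at hz
    rcases hz with ⟨a, b⟩ | ⟨a, b⟩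
    · exact ⟨by linarith, by linarith, by linarith, by linarith⟩
    · exact ⟨by linarith, by linarith, by linarith, by linarith⟩
  exact hn e he e' he' hne z hz1.1 hz1.2.1 hz1.2.2.1 hz1.2.2.2 (by simp only at hz0; linarith)

/-- without a visible point the lowest arc above `e` does not change -/
theorem low_const (h : Arcs W E l r F) (hn : NoCross E l r F) {e : α} (he : e ∈ E)
    (hv : ∀ w ∈ W, ¬ Vis E l r F e w) {x y : ℝ} (hx : x ∈ Set.Ioo (l e) (r e))
    (hy : y ∈ Set.Ioo (l e) (r e)) {g : α} (hg : g ∈ E) (hlow : Low E l r F e g x) :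
    Low E l r F e g y := by
  have key : ∀ g ∈ E, (Low E l r F e g x ↔ Low E l r F e g y) := by
    refine (isPreconnected_Ioo (a := l e) (b := r e)).induction₂
      (fun x y => ∀ g ∈ E, (Low E l r F e g x ↔ Low E l r F e g y)) ?_ ?_ ?_ hx hy
    · intro x hx
      have e1 : ∀ g ∈ E, ∀ᶠ y in 𝓝 x, (l g < x → l g < y) ∧ (x < r g → y < r g) ∧
          (x < l g → y < l g) ∧ (r g < x → r g < y) := by
        intro g _
        refine Filter.Eventually.and ?_ (Filter.Eventually.and ?_ (Filter.Eventually.and ?_ ?_))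
        · by_cases hh : l g < x
          · filter_upwards [lt_mem_nhds hh] with y hy _ using hy
          · exact Filter.Eventually.of_forall fun y h1 => absurd h1 hh
        · by_cases hh : x < r g
          · filter_upwards [gt_mem_nhds hh] with y hy _ using hy
          · exact Filter.Eventually.of_forall fun y h1 => absurd h1 hh
        · by_cases hh : x < l g
          · filter_upwards [gt_mem_nhds hh] with y hy _ using hy
          · exact Filter.Eventually.of_forall fun y h1 => absurd h1 hh
        · by_cases hh : r g < x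
          · filter_upwards [lt_mem_nhds hh] with y hy _ using hy
          · exact Filter.Eventually.of_forall fun y h1 => absurd h1 hh
      have e2 : ∀ g ∈ E, ∀ g' ∈ E, ∀ᶠ y in 𝓝 x, (F g x < F g' x → F g y < F g' y) := by
        intro g _ g' _
        by_cases hh : F g x < F g' x
        · have := ((h.cont g).continuousAt (x := x)).eventually_lt
            ((h.cont g').continuousAt (x := x)) hh
          filter_upwards [this] with y hy _ using hy
        · exact Filter.Eventually.of_forall fun y h1 => absurd h1 hh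
      have e1' := (Finset.eventually_all E).mpr e1
      have e2' := (Finset.eventually_all E).mpr fun g hg => (Finset.eventually_all E).mpr (e2 g hg)
      refine (nhdsWithin_le_nhds : 𝓝[Set.Ioo (l e) (r e)] x ≤ 𝓝 x) ?_
      filter_upwards [e1', e2'] with y h1 h2
      -- an arc with an end above `x` is never lowest near `x`
      have hend : ∀ g ∈ E, ¬ (l g < x ∧ x < r g) → l g < y → y < r g → F e y < F g y →
          ∃ e' ∈ E, l e' < x ∧ x < r e' ∧ F e x < F e' x ∧ F e' x < F g x := by
        intro g hg hgx hly hry hay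
        have hcl : l g = x ∨ r g = x := by
          by_contra hcon
          push Not at hcon
          rcases lt_trichotomy x (l g) with h3 | h3 | h3
          · exact absurd ((h1 g hg).2.2.1 h3) (not_lt.mpr hly.le)
          · exact hcon.1 h3.symm
          · rcases lt_trichotomy x (r g) with h4 | h4 | h4
            · exact hgx ⟨h3, h4⟩
            · exact hcon.2 h4.symm
            · exact absurd ((h1 g hg).2.2.2 h4) (not_lt.mpr hry.le)
        have hw : (x, F g x) ∈ W := by
          rcases hcl with h3 | h3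
          · have := h.left g hg
            rwa [h3] at this
          · have := h.right g hg
            rwa [h3] at this
        have hne : F g x ≠ F e x := h.inner e he _ hw hx.1 hx.2
        have hlt : F e x < F g x := by
          rcases lt_or_gt_of_ne hne with h3 | h3
          · exact absurd (h2 g hg e he h3) (not_lt.mpr hay.le)
          · exact h3
        have := hv _ hw
        unfold Vis at this
        push Not at this
        obtain ⟨e', he', h5, h6, h7, h8⟩ := this hx.1 hx.2 hlt
        exact ⟨e', he', h5, h6, h7, h8⟩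
      intro g hg
      constructor
      · rintro ⟨⟨g1, g2, g3⟩, g4⟩
        refine ⟨⟨(h1 g hg).1 g1, (h1 g hg).2.1 g2, h2 e he g hg g3⟩, fun g' hg' h5 h6 h7 => ?_⟩
        by_cases hgx : l g' < x ∧ x < r g'
        · by_cases hgg : g = g'
          · rw [hgg]
          · have hne' := hn g hg g' hg' hgg x g1 g2 hgx.1 hgx.2
            rcases lt_or_gt_of_ne hne' with h8 | h8
            · exact (h2 g hg g' hg' h8).le
            · -- then `g'` is not above `e` at `x`
              have h9 : ¬ (F e x < F g' x) := fun h10 =>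
                absurd (g4 g' hg' hgx.1 hgx.2 h10) (not_le.mpr h8)
              have h10 : e ≠ g' := by
                rintro rfl
                exact lt_irrefl _ h7
              have h11 := hn e he g' hg' h10 x hx.1 hx.2 hgx.1 hgx.2
              rcases lt_or_gt_of_ne h11 with h12 | h12
              · exact absurd h12 h9
              · exact absurd (h2 g' hg' e he h12) (not_lt.mpr h7.le)
        · obtain ⟨e', he', h8, h9, h10, h11⟩ := hend g' hg' hgx h5 h6 h7
          have h12 := g4 e' he' h8 h9 h10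
          exact (h2 g hg g' hg' (lt_of_le_of_lt h12 h11)).le
      · rintro ⟨⟨g1, g2, g3⟩, g4⟩
        have hgx : l g < x ∧ x < r g := by
          by_contra hgx
          obtain ⟨e', he', h8, h9, h10, h11⟩ := hend g hg hgx g1 g2 g3
          have h12 := g4 e' he' ((h1 e' he').1 h8) ((h1 e' he').2.1 h9) (h2 e he e' he' h10)
          exact absurd (h2 e' he' g hg h11) (not_lt.mpr h12)
        have h3 : F e x < F g x := by
          have h10 : e ≠ g := by
            rintro rfl
            exact lt_irrefl _ g3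
          rcases lt_or_gt_of_ne (hn e he g hg h10 x hx.1 hx.2 hgx.1 hgx.2) with h12 | h12
          · exact h12
          · exact absurd (h2 g hg e he h12) (not_lt.mpr g3.le)
        refine ⟨⟨hgx.1, hgx.2, h3⟩, fun g' hg' h5 h6 h7 => ?_⟩
        by_contra h8
        rw [not_le] at h8
        have h9 := g4 g' hg' ((h1 g' hg').1 h5) ((h1 g' hg').2.1 h6) (h2 e he g' hg' h7)
        exact absurd (h2 g' hg' g hg h8) (not_lt.mpr h9)
    · intro x y z _ _ _ h1 h2 g hg
      exact (h1 g hg).trans (h2 g hg)
    · intro x y _ _ h1 g hg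
      exact (h1 g hg).symm
  exact (key g hg).mp hlow

/-- main step: the arc is the highest one at an end, or a point of `W` is visible -/
theorem exists_vis (h : Arcs W E l r F) (hn : NoCross E l r F) {e e1 e2 : α} (he : e ∈ E)
    (he1 : e1 ∈ E) (he2 : e2 ∈ E) (h1r : r e1 = r e) (h1v : F e1 (r e) = F e (r e))
    (h1a : Above l r F e e1) (h2l : l e2 = l e) (h2v : F e2 (l e) = F e (l e))
    (h2a : Above l r F e e2) : ∃ w ∈ W, Vis E l r F e w := by
  classical
  by_contra hcon
  push Not at hcon
  have hlt := h.lt e he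
  have hlt1 := h.lt e1 he1
  have hlt2 := h.lt e2 he2
  -- a lowest arc near the right end
  obtain ⟨x0, hx0, hx0'⟩ : ∃ x0, max (l e) (l e1) < x0 ∧ x0 < r e :=
    exists_between (max_lt hlt (by rw [← h1r]; exact hlt1))
  rw [max_lt_iff] at hx0
  have hne : (E.filter fun g => l g < x0 ∧ x0 < r g ∧ F e x0 < F g x0).Nonempty :=
    ⟨e1, by
      rw [Finset.mem_filter]
      exact ⟨he1, hx0.2, by rw [h1r]; exact hx0', above_all h hn he he1 h1a hx0.1 hx0' hx0.2
        (by rw [h1r]; exact hx0')⟩⟩
  obtain ⟨g, hg, hgmin⟩ := Finset.exists_min_image _ (fun g => F g x0) hne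
  rw [Finset.mem_filter] at hg
  have hlow0 : Low E l r F e g x0 := by
    refine ⟨hg.2, fun g' hg' h1 h2 h3 => hgmin g' ?_⟩
    rw [Finset.mem_filter]
    exact ⟨hg', h1, h2, h3⟩
  have hall : ∀ y ∈ Set.Ioo (l e) (r e), Low E l r F e g y := fun y hy =>
    low_const h hn he hcon ⟨hx0.1, hx0'⟩ hy hg.1 hlow0
  have hgl : l g ≤ l e := by
    by_contra hh
    rw [not_le] at hh
    obtain ⟨y, hy1, hy2⟩ := exists_between (lt_min hh hlt)
    rw [lt_min_iff] at hy2
    exact absurd (hall y ⟨hy1, hy2.2⟩).1.1 (not_lt.mpr hy2.1.le)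
  have hgr : r e ≤ r g := by
    by_contra hh
    rw [not_le] at hh
    obtain ⟨y, hy1, hy2⟩ := exists_between (max_lt hh hlt)
    rw [max_lt_iff] at hy1
    exact absurd (hall y ⟨hy1.2, hy2⟩).1.2.1 (not_lt.mpr hy1.1.le)
  -- values at the right end
  have hR : F g (r e) = F e (r e) := by
    have ev : ∀ᶠ y in 𝓝[<] (r e), F e y ≤ F g y ∧ F g y ≤ F e1 y := by
      have hm : Set.Ioo (max (l e) (l e1)) (r e) ∈ 𝓝[<] (r e) :=
        Ioo_mem_nhdsLT (max_lt hlt (by rw [← h1r]; exact hlt1))
      filter_upwards [hm] with y hy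
      have hy1 := max_lt_iff.mp hy.1
      have hlw := hall y ⟨hy1.1, hy.2⟩
      refine ⟨hlw.1.2.2.le, hlw.2 e1 he1 hy1.2 (by rw [h1r]; exact hy.2) ?_⟩
      exact above_all h hn he he1 h1a hy1.1 hy.2 hy1.2 (by rw [h1r]; exact hy.2)
    have t1 : Tendsto (F e) (𝓝[<] (r e)) (𝓝 (F e (r e))) := (h.cont e).continuousWithinAt
    have t2 : Tendsto (F g) (𝓝[<] (r e)) (𝓝 (F g (r e))) := (h.cont g).continuousWithinAt
    have t3 : Tendsto (F e1) (𝓝[<] (r e)) (𝓝 (F e1 (r e))) := (h.cont e1).continuousWithinAt
    have a1 := le_of_tendsto_of_tendsto t1 t2 (ev.mono fun y hy => hy.1)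
    have a2 := le_of_tendsto_of_tendsto t2 t3 (ev.mono fun y hy => hy.2)
    rw [h1v] at a2
    exact le_antisymm a2 a1
  have hL : F g (l e) = F e (l e) := by
    have ev : ∀ᶠ y in 𝓝[>] (l e), F e y ≤ F g y ∧ F g y ≤ F e2 y := by
      have hm : Set.Ioo (l e) (min (r e) (r e2)) ∈ 𝓝[>] (l e) :=
        Ioo_mem_nhdsGT (lt_min hlt (by rw [← h2l]; exact hlt2))
      filter_upwards [hm] with y hy
      have hy1 := lt_min_iff.mp hy.2
      have hlw := hall y ⟨hy.1, hy1.1⟩
      refine ⟨hlw.1.2.2.le, hlw.2 e2 he2 (by rw [h2l]; exact hy.1) hy1.2 ?_⟩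
      exact above_all h hn he he2 h2a hy.1 hy1.1 (by rw [h2l]; exact hy.1) hy1.2
    have t1 : Tendsto (F e) (𝓝[>] (l e)) (𝓝 (F e (l e))) := (h.cont e).continuousWithinAt
    have t2 : Tendsto (F g) (𝓝[>] (l e)) (𝓝 (F g (l e))) := (h.cont g).continuousWithinAt
    have t3 : Tendsto (F e2) (𝓝[>] (l e)) (𝓝 (F e2 (l e))) := (h.cont e2).continuousWithinAt
    have a1 := le_of_tendsto_of_tendsto t1 t2 (ev.mono fun y hy => hy.1)
    have a2 := le_of_tendsto_of_tendsto t2 t3 (ev.mono fun y hy => hy.2)
    rw [h2v] at a2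
    exact le_antisymm a2 a1
  have hrr : r g = r e := by
    rcases lt_or_eq_of_le hgr with h3 | h3
    · exact absurd hR.symm (h.inner g hg.1 _ (h.right e he) (lt_of_le_of_lt hgl hlt) h3)
    · exact h3.symm
  have hll : l g = l e := by
    rcases lt_or_eq_of_le hgl with h3 | h3
    · exact absurd hL.symm (h.inner g hg.1 _ (h.left e he) h3 (lt_of_lt_of_le hlt hgr))
    · exact h3
  have hge : g ≠ e := by
    rintro rfl
    exact lt_irrefl _ hg.2.2.2
  exact h.simple g hg.1 e he hge hll hrr (by rw [hll]; exact hL) (by rw [hrr]; exact hR)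

/-- two arcs over a common abscissa: one is above the other one -/
theorem above_or (hn : NoCross E l r F) {e e' : α} (he : e ∈ E) (he' : e' ∈ E) (hne : e ≠ e')
    (h1 : max (l e) (l e') < min (r e) (r e')) : Above l r F e e' ∨ Above l r F e' e := by
  obtain ⟨x, hx1, hx2⟩ := exists_between h1
  rw [max_lt_iff] at hx1
  rw [lt_min_iff] at hx2
  rcases lt_or_gt_of_ne (hn e he e' he' hne x hx1.1 hx2.1 hx1.2 hx2.2) with h | h
  · exact Or.inl ⟨x, hx1.1, hx2.1, hx1.2, hx2.2, h⟩
  · exact Or.inr ⟨x, hx1.2, hx2.2, hx1.1, hx2.1, h⟩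

theorem card_le_of_noCross (h : Arcs W E l r F) (hn : NoCross E l r F) : E.card ≤ 3 * W.card := by
  classical
  set A1 := E.filter fun e => ∀ e' ∈ E, r e' = r e → F e' (r e) = F e (r e) →
    ¬ Above l r F e e' with hA1
  set A2 := E.filter fun e => ∀ e' ∈ E, l e' = l e → F e' (l e) = F e (l e) →
    ¬ Above l r F e e' with hA2
  set A3 := E.filter fun e => ∃ w ∈ W, Vis E l r F e w with hA3
  have hsub : E ⊆ A1 ∪ A2 ∪ A3 := by
    intro e he
    by_contra hcon
    rw [Finset.mem_union, Finset.mem_union, not_or, not_or] at hcon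
    obtain ⟨⟨c1, c2⟩, c3⟩ := hcon
    rw [hA1, Finset.mem_filter, not_and] at c1
    rw [hA2, Finset.mem_filter, not_and] at c2
    rw [hA3, Finset.mem_filter, not_and] at c3
    have d1 := c1 he
    have d2 := c2 he
    push Not at d1 d2
    obtain ⟨e1, he1, a1, a2, a3⟩ := d1
    obtain ⟨e2, he2, b1, b2, b3⟩ := d2
    exact c3 he (exists_vis h hn he he1 he2 a1 a2 a3 b1 b2 b3)
  have n1 : A1.card ≤ W.card := by
    refine Finset.card_le_card_of_injOn (fun e => (r e, F e (r e))) (fun e he => ?_) ?_
    · rw [Finset.mem_coe, hA1, Finset.mem_filter] at he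
      exact h.right e he.1
    · intro e he e' he' hee
      rw [Finset.mem_coe, hA1, Finset.mem_filter] at he he'
      simp only [Prod.mk.injEq] at hee
      by_contra hne
      have hr := hee.1
      have hF : F e (r e) = F e' (r e) := by rw [hee.2, hr]
      rcases above_or hn he.1 he'.1 hne (by
        rw [← hr, min_self]
        exact max_lt (h.lt e he.1) (by rw [hr]; exact h.lt e' he'.1)) with h1 | h1
      · exact he.2 e' he'.1 hr.symm hF.symm h1
      · exact he'.2 e he.1 hr (by rw [← hr]; exact hF) h1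
  have n2 : A2.card ≤ W.card := by
    refine Finset.card_le_card_of_injOn (fun e => (l e, F e (l e))) (fun e he => ?_) ?_
    · rw [Finset.mem_coe, hA2, Finset.mem_filter] at he
      exact h.left e he.1
    · intro e he e' he' hee
      rw [Finset.mem_coe, hA2, Finset.mem_filter] at he he'
      simp only [Prod.mk.injEq] at hee
      by_contra hne
      have hr := hee.1
      have hF : F e (l e) = F e' (l e) := by rw [hee.2, hr]
      rcases above_or hn he.1 he'.1 hne (by
        rw [← hr, max_self]
        exact lt_min (h.lt e he.1) (by rw [hr]; exact h.lt e' he'.1)) with h1 | h1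
      · exact he.2 e' he'.1 hr.symm hF.symm h1
      · exact he'.2 e he.1 hr (by rw [← hr]; exact hF) h1
  have n3 : A3.card ≤ W.card := by
    have hch : ∀ e ∈ A3, ∃ w ∈ W, Vis E l r F e w := fun e he => by
      rw [hA3, Finset.mem_filter] at he
      exact he.2
    choose! f hf1 hf2 using hch
    refine Finset.card_le_card_of_injOn f (fun e he => hf1 e he) ?_
    intro e he e' he' hee
    have v1 := hf2 e he
    have v2 := hf2 e' he'
    rw [← hee] at v2
    by_contra hne
    have he1 : e ∈ E := by
      rw [Finset.mem_coe, hA3, Finset.mem_filter] at he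
      exact he.1
    have he2 : e' ∈ E := by
      rw [Finset.mem_coe, hA3, Finset.mem_filter] at he'
      exact he'.1
    obtain ⟨a1, a2, a3, a4⟩ := v1
    obtain ⟨b1, b2, b3, b4⟩ := v2
    rcases lt_or_gt_of_ne (hn e he1 e' he2 hne _ a1 a2 b1 b2) with h1 | h1
    · exact absurd (a4 e' he2 b1 b2 h1) (not_le.mpr b3)
    · exact absurd (b4 e he1 a1 a2 h1) (not_le.mpr a3)
  calc E.card ≤ (A1 ∪ A2 ∪ A3).card := Finset.card_le_card hsub
    _ ≤ (A1 ∪ A2).card + A3.card := Finset.card_union_le _ _
    _ ≤ A1.card + A2.card + A3.card := by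
      have := Finset.card_union_le A1 A2
      omega
    _ ≤ 3 * W.card := by omega

end Pool.Agent.HoroB
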