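import Pool.Agent.HoroB.Cross

set_option autoImplicit false

/-!
# Horocycles through points of the upper half-plane as graphs

`ff z a` is the euclidean diameter of the horocycle through `z` centred at the real point `a`.
-/

open Finset UpperHalfPlane

namespace Pool.Agent.HoroB

/-- diameter of the horocycle through `z` tangent at `a` -/
noncomputable def ff (z : ℍ) (a : ℝ) : ℝ := ((a - z.re) ^ 2 + z.im ^ 2) / z.im

theorem ff_mul (z : ℍ) (a : ℝ) : ff z a * z.im = (a - z.re) ^ 2 + z.im ^ 2 := by
  unfold ff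
  rw [div_mul_cancel₀ _ z.im_pos.ne']

theorem ff_cont (z : ℍ) : Continuous (ff z) := by
  unfold ff
  fun_prop

theorem ff_pos (z : ℍ) (a : ℝ) : 0 < ff z a := by
  unfold ff
  exact div_pos (by nlinarith [z.im_pos, sq_nonneg (a - z.re), pow_pos z.im_pos 2]) z.im_pos

/-- the ideal points `a`, `b` are seen from `z` under an angle at most `π` (on the side of the
interval) -/
def good (z : ℍ) (a b : ℝ) : Prop := 0 ≤ (a - z.re) * (b - z.re) + z.im ^ 2

theorem ext' {z w : ℍ} (h1 : z.re = w.re) (h2 : z.im = w.im) : z = w :=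
  UpperHalfPlane.ext (Complex.ext h1 h2)

/-- two horocycles determine two points, one on each side of the geodesic between the centres -/
theorem good_unique {z w : ℍ} {a c : ℝ} (hac : a ≠ c) (h1 : ff z a = ff w a)
    (h2 : ff z c = ff w c) (g1 : good z a c) (g2 : good w a c) : z = w := by
  have y1 := z.im_pos
  have y2 := w.im_pos
  have e1 := ff_mul z a
  have e2 := ff_mul z c
  have e3 := ff_mul w a
  have e4 := ff_mul w c
  rw [← h1] at e3
  rw [← h2] at e4
  unfold good at g1 g2
  set s := ff z a
  set t := ff z c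
  set x := z.re
  set y := z.im
  set x' := w.re
  set y' := w.im
  set k := (a - x) * (c - x) + y ^ 2 with hk
  set k' := (a - x') * (c - x') + y' ^ 2 with hk'
  have i1 : k ^ 2 = y ^ 2 * (s * t - (a - c) ^ 2) := by
    have : s * t * y ^ 2 = ((a - x) ^ 2 + y ^ 2) * ((c - x) ^ 2 + y ^ 2) := by
      rw [← e1, ← e2]; ring
    rw [hk]
    linear_combination -this
  have i2 : k' ^ 2 = y' ^ 2 * (s * t - (a - c) ^ 2) := by
    have : s * t * y' ^ 2 = ((a - x') ^ 2 + y' ^ 2) * ((c - x') ^ 2 + y' ^ 2) := by
      rw [← e3, ← e4]; ring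
    rw [hk']
    linear_combination -this
  have j1 : (s + t) * y - 2 * k = (a - c) ^ 2 := by
    rw [hk]; linear_combination e1 + e2
  have j2 : (s + t) * y' - 2 * k' = (a - c) ^ 2 := by
    rw [hk']; linear_combination e3 + e4
  have hkk : k * y' = k' * y := by
    have h3 : (k * y') ^ 2 = (k' * y) ^ 2 := by
      rw [mul_pow, mul_pow, i1, i2]; ring
    have h4 : 0 ≤ k * y' := mul_nonneg g1 y2.le
    have h5 : 0 ≤ k' * y := mul_nonneg g2 y1.le
    exact (pow_left_inj₀ h4 h5 two_ne_zero).mp h3
  have hD : (a - c) ^ 2 ≠ 0 := pow_ne_zero 2 (sub_ne_zero.mpr hac)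
  have hyy : y = y' := by
    have : (a - c) ^ 2 * (y - y') = 0 := by
      linear_combination y' * j1 - y * j2 + 2 * hkk
    rcases mul_eq_zero.mp this with h | h
    · exact absurd h hD
    · linarith
  have hxx : x = x' := by
    have : (a - c) * (x - x') = 0 := by
      have h6 : s * y - t * y = (a - x) ^ 2 - (c - x) ^ 2 := by linarith
      have h7 : s * y' - t * y' = (a - x') ^ 2 - (c - x') ^ 2 := by linarith
      rw [← hyy] at h7
      linear_combination (1 / 2 : ℝ) * (h6 - h7)
    rcases mul_eq_zero.mp this with h | h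
    · exact absurd h (sub_ne_zero.mpr hac)
    · linarith
  exact ext' hxx hyy

theorem good_right {z : ℍ} {a x b : ℝ} (h : good z a b) (h1 : a < x) (h2 : x < b) :
    good z a x := by
  unfold good at *
  rcases le_or_gt z.re a with h3 | h3
  · have : 0 ≤ (a - z.re) * (x - z.re) := mul_nonneg (by linarith) (by linarith)
    nlinarith [sq_nonneg z.im]
  · nlinarith

theorem good_left {z : ℍ} {a x b : ℝ} (h : good z a b) (h1 : a < x) (h2 : x < b) :
    good z x b := by
  unfold good at *
  rcases le_or_gt b z.re with h3 | h3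
  · have : 0 ≤ (x - z.re) * (b - z.re) := mul_nonneg_of_nonpos_of_nonpos (by linarith) (by linarith)
    nlinarith [sq_nonneg z.im]
  · nlinarith

theorem good_symm {z : ℍ} {a b : ℝ} (h : good z a b) : good z b a := by
  unfold good at *
  rw [mul_comm]
  exact h

/-- `not good` implies that the real part is between -/
theorem between_of_not_good {z : ℍ} {a b : ℝ} (hab : a < b) (h : ¬ good z a b) :
    a < z.re ∧ z.re < b := by
  unfold good at h
  rw [not_le] at h
  constructor
  · by_contra h1
    rw [not_lt] at h1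
    have : 0 ≤ (a - z.re) * (b - z.re) := mul_nonneg (by linarith) (by linarith)
    nlinarith [sq_nonneg z.im]
  · by_contra h1
    rw [not_lt] at h1
    have : 0 ≤ (a - z.re) * (b - z.re) :=
      mul_nonneg_of_nonpos_of_nonpos (by linarith) (by linarith)
    nlinarith [sq_nonneg z.im]

/-- the equation for the centres of the horocycles through `z` and `w` -/
theorem ff_eq_iff (z w : ℍ) (a : ℝ) : ff z a = ff w a ↔
    (w.im - z.im) * a ^ 2 - 2 * (w.im * z.re - z.im * w.re) * a +
      (w.im * (z.re ^ 2 + z.im ^ 2) - z.im * (w.re ^ 2 + w.im ^ 2)) = 0 := by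
  unfold ff
  rw [div_eq_div_iff z.im_pos.ne' w.im_pos.ne']
  constructor <;> intro h
  · linear_combination h
  · linear_combination h

theorem three {z w : ℍ} {a b c : ℝ} (hab : a ≠ b) (hac : a ≠ c) (hbc : b ≠ c)
    (h1 : ff z a = ff w a) (h2 : ff z b = ff w b) (h3 : ff z c = ff w c) : z = w := by
  rw [ff_eq_iff] at h1 h2 h3
  have e1 : (w.im - z.im) * (a + b) = 2 * (w.im * z.re - z.im * w.re) := by
    have : (a - b) * ((w.im - z.im) * (a + b) - 2 * (w.im * z.re - z.im * w.re)) = 0 := by
      linear_combination h1 - h2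
    rcases mul_eq_zero.mp this with h | h
    · exact absurd h (sub_ne_zero.mpr hab)
    · linarith
  have e2 : (w.im - z.im) * (a + c) = 2 * (w.im * z.re - z.im * w.re) := by
    have : (a - c) * ((w.im - z.im) * (a + c) - 2 * (w.im * z.re - z.im * w.re)) = 0 := by
      linear_combination h1 - h3
    rcases mul_eq_zero.mp this with h | h
    · exact absurd h (sub_ne_zero.mpr hac)
    · linarith
  have e3 : w.im = z.im := by
    have : (w.im - z.im) * (b - c) = 0 := by linear_combination e1 - e2
    rcases mul_eq_zero.mp this with h | h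
    · linarith
    · exact absurd h (sub_ne_zero.mpr hbc)
  rw [e3] at e1
  have e4 : z.im * (z.re - w.re) = 0 := by linear_combination -(1 / 2 : ℝ) * e1
  rcases mul_eq_zero.mp e4 with h | h
  · exact absurd h z.im_pos.ne'
  · exact ext' (by linarith) e3.symm

/-- the centres of the horocycles through `z` and `w` form a finite set -/
theorem finite_cr {z w : ℍ} (hzw : z ≠ w) : {a : ℝ | ff z a = ff w a}.Finite := by
  by_contra hinf
  obtain ⟨t, ht, htc⟩ := (show {a : ℝ | ff z a = ff w a}.Infinite from hinf).exists_subset_card_eq 3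
  obtain ⟨a, b, c, hab, hac, hbc, rfl⟩ := Finset.card_eq_three.mp htc
  have h1 : ff z a = ff w a := ht (by simp)
  have h2 : ff z b = ff w b := ht (by simp)
  have h3 : ff z c = ff w c := ht (by simp)
  exact hzw (three hab hac hbc h1 h2 h3)

open Classical in
/-- the centres of the horocycles through `z` and `w` -/
noncomputable def cr (z w : ℍ) : Finset ℝ :=
  if h : z = w then ∅ else (finite_cr h).toFinset

theorem mem_cr {z w : ℍ} (hzw : z ≠ w) {a : ℝ} : a ∈ cr z w ↔ ff z a = ff w a := by
  unfold cr
  rw [dif_neg hzw, Set.Finite.mem_toFinset]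
  rfl

theorem card_cr_le (z w : ℍ) : (cr z w).card ≤ 2 := by
  by_contra hcon
  rw [not_le, Finset.two_lt_card] at hcon
  obtain ⟨a, ha, b, hb, c, hc, hab, hac, hbc⟩ := hcon
  by_cases hzw : z = w
  · unfold cr at ha
    rw [dif_pos hzw] at ha
    exact absurd ha (Finset.notMem_empty _)
  · rw [mem_cr hzw] at ha hb hc
    exact hzw (three hab hac hbc ha hb hc)

theorem card_cr_ne {z w : ℍ} (h : z.im ≠ w.im) : (cr z w).card = 2 := by
  have hzw : z ≠ w := fun hh => h (by rw [hh])
  refine le_antisymm (card_cr_le z w) ?_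
  rw [show (2 : ℕ) = 1 + 1 from rfl, Nat.add_one_le_iff, Finset.one_lt_card]
  set D := z.im * w.im * ((z.re - w.re) ^ 2 + (z.im - w.im) ^ 2) with hD
  have hDpos : 0 < D := by
    have h1 : 0 < (z.im - w.im) ^ 2 := by
      have := sub_ne_zero.mpr h
      positivity
    have := z.im_pos
    have := w.im_pos
    positivity
  set q := Real.sqrt D with hq
  have hqq : q ^ 2 = D := Real.sq_sqrt hDpos.le
  have hq0 : 0 < q := Real.sqrt_pos.mpr hDpos
  have hne : w.im - z.im ≠ 0 := sub_ne_zero.mpr (Ne.symm h)
  refine ⟨((w.im * z.re - z.im * w.re) + q) / (w.im - z.im), ?_,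
    ((w.im * z.re - z.im * w.re) - q) / (w.im - z.im), ?_, ?_⟩
  · rw [mem_cr hzw, ff_eq_iff]
    field_simp
    rw [hD] at hqq
    linear_combination hqq
  · rw [mem_cr hzw, ff_eq_iff]
    field_simp
    rw [hD] at hqq
    linear_combination hqq
  · intro hh
    rw [div_left_inj' hne] at hh
    linarith

theorem cr_nonempty {z w : ℍ} (hzw : z ≠ w) : (cr z w).Nonempty := by
  by_cases h : z.im = w.im
  · refine ⟨(z.re + w.re) / 2, ?_⟩
    rw [mem_cr hzw, ff_eq_iff, h]
    ring
  · rw [← Finset.card_pos, card_cr_ne h]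
    norm_num

/-- two points of the same height on a horocycle -/
theorem re_add {z w : ℍ} (hzw : z ≠ w) (h : z.im = w.im) {a : ℝ} (ha : ff z a = ff w a) :
    z.re + w.re = 2 * a := by
  rw [ff_eq_iff, h] at ha
  have h1 : w.im * ((z.re - w.re) * (z.re + w.re - 2 * a)) = 0 := by linear_combination ha
  rcases mul_eq_zero.mp h1 with h2 | h2
  · exact absurd h2 w.im_pos.ne'
  · rcases mul_eq_zero.mp h2 with h3 | h3
    · exact absurd (ext' (by linarith) h) hzw
    · linarith

end Pool.Agent.HoroB
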